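import Pool.Agent.Lib.MP_db21fa_an.TF.Defs

/-!
Module I, part A: the bilinear operation on the space of continuous functions.
-/

set_option autoImplicit false

open Filter Topology Metric

namespace Pool.Agent.Lib.MP_db21fa_an.H68

section op

variable {K : Type*} [TopologicalSpace K] [CompactSpace K] {N : ℕ}

theorem norm_comp_le (q : C(K, ℂ)) (φ : C(K, K)) : ‖q.comp φ‖ ≤ ‖q‖ := by
  rw [ContinuousMap.norm_le _ (norm_nonneg q)]
  intro x
  exact q.norm_coe_le_norm (φ x)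

/-- the algebraic form of the operation -/
noncomputable def B3fun (φ ψ : Fin N → C(K, K)) (o : Fin N → C(K, ℂ)) :
    C(K, ℂ) →ₗ[ℂ] C(K, ℂ) →ₗ[ℂ] C(K, ℂ) :=
  LinearMap.mk₂ ℂ (fun q q' => ∑ i, (q.comp (φ i)) * (q'.comp (ψ i)) * o i)
    (by
      intro q₁ q₂ q'
      rw [← Finset.sum_add_distrib]
      refine Finset.sum_congr rfl fun i _ => ?_
      ext u
      simp only [ContinuousMap.coe_mul, Pi.mul_apply, ContinuousMap.comp_apply,
        ContinuousMap.add_apply]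
      ring)
    (by
      intro c q q'
      rw [Finset.smul_sum]
      refine Finset.sum_congr rfl fun i _ => ?_
      ext u
      simp only [ContinuousMap.coe_mul, Pi.mul_apply, ContinuousMap.comp_apply,
        ContinuousMap.smul_apply, smul_eq_mul]
      ring)
    (by
      intro q q₁ q₂
      rw [← Finset.sum_add_distrib]
      refine Finset.sum_congr rfl fun i _ => ?_
      ext u
      simp only [ContinuousMap.coe_mul, Pi.mul_apply, ContinuousMap.comp_apply,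
        ContinuousMap.add_apply]
      ring)
    (by
      intro c q q'
      rw [Finset.smul_sum]
      refine Finset.sum_congr rfl fun i _ => ?_
      ext u
      simp only [ContinuousMap.coe_mul, Pi.mul_apply, ContinuousMap.comp_apply,
        ContinuousMap.smul_apply, smul_eq_mul]
      ring)

theorem B3fun_apply (φ ψ : Fin N → C(K, K)) (o : Fin N → C(K, ℂ)) (q q' : C(K, ℂ)) :
    B3fun φ ψ o q q' = ∑ i, (q.comp (φ i)) * (q'.comp (ψ i)) * o i := rfl

theorem B3fun_bound (φ ψ : Fin N → C(K, K)) (o : Fin N → C(K, ℂ)) (q q' : C(K, ℂ)) :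
    ‖B3fun φ ψ o q q'‖ ≤ (∑ i, ‖o i‖) * ‖q‖ * ‖q'‖ := by
  rw [B3fun_apply, Finset.sum_mul, Finset.sum_mul]
  refine (norm_sum_le _ _).trans (Finset.sum_le_sum fun i _ => ?_)
  have h1 := norm_comp_le q (φ i)
  have h2 := norm_comp_le q' (ψ i)
  calc ‖(q.comp (φ i)) * (q'.comp (ψ i)) * o i‖
      ≤ ‖q.comp (φ i)‖ * ‖q'.comp (ψ i)‖ * ‖o i‖ :=
        (norm_mul_le _ _).trans (mul_le_mul_of_nonneg_right (norm_mul_le _ _) (norm_nonneg _))
    _ ≤ ‖q‖ * ‖q'‖ * ‖o i‖ := by gcongr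
    _ = ‖o i‖ * ‖q‖ * ‖q'‖ := by ring

/-- the bilinear operation -/
noncomputable def B3 (φ ψ : Fin N → C(K, K)) (o : Fin N → C(K, ℂ)) :
    C(K, ℂ) →L[ℂ] C(K, ℂ) →L[ℂ] C(K, ℂ) :=
  LinearMap.mkContinuous₂ (B3fun φ ψ o) (∑ i, ‖o i‖) (B3fun_bound φ ψ o)

theorem B3_apply (φ ψ : Fin N → C(K, K)) (o : Fin N → C(K, ℂ)) (q q' : C(K, ℂ)) (u : K) :
    B3 φ ψ o q q' u = ∑ i, q (φ i u) * q' (ψ i u) * o i u := by
  change (B3fun φ ψ o q q') u = _
  rw [B3fun_apply, ContinuousMap.sum_apply]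
  rfl

theorem norm_B3_le (φ ψ : Fin N → C(K, K)) (o : Fin N → C(K, ℂ)) :
    ‖B3 φ ψ o‖ ≤ ∑ i, ‖o i‖ :=
  LinearMap.mkContinuous₂_norm_le _ (Finset.sum_nonneg fun _ _ => norm_nonneg _) _

theorem B3_sub (φ ψ : Fin N → C(K, K)) (o o' : Fin N → C(K, ℂ)) :
    B3 φ ψ o - B3 φ ψ o' = B3 φ ψ (fun i => o i - o' i) := by
  ext q q' u
  simp only [_root_.sub_apply, ContinuousMap.sub_apply, B3_apply]
  rw [← Finset.sum_sub_distrib]
  refine Finset.sum_congr rfl fun i _ => ?_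
  ring

theorem B3_smul (φ ψ : Fin N → C(K, K)) (c : ℂ) (o : Fin N → C(K, ℂ)) :
    c • B3 φ ψ o = B3 φ ψ (fun i => c • o i) := by
  ext q q' u
  simp only [_root_.smul_apply, ContinuousMap.smul_apply, B3_apply, smul_eq_mul]
  rw [Finset.mul_sum]
  refine Finset.sum_congr rfl fun i _ => ?_
  ring

theorem B3_tendsto (φ ψ : Fin N → C(K, K)) {o : ℕ → Fin N → C(K, ℂ)} {o' : Fin N → C(K, ℂ)}
    (h : ∀ i, Tendsto (fun j => o j i) atTop (𝓝 (o' i))) :
    Tendsto (fun j => B3 φ ψ (o j)) atTop (𝓝 (B3 φ ψ o')) := by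
  refine (tendsto_iff_norm_sub_tendsto_zero (E := C(K, ℂ) →L[ℂ] C(K, ℂ) →L[ℂ] C(K, ℂ))).mpr ?_
  have h1 : Tendsto (fun j => ∑ i, ‖o j i - o' i‖) atTop (𝓝 0) := by
    have : Tendsto (fun j => ∑ i, ‖o j i - o' i‖) atTop (𝓝 (∑ _i : Fin N, (0 : ℝ))) :=
      tendsto_finsetSum _ fun i _ => tendsto_iff_norm_sub_tendsto_zero.mp (h i)
    simpa using this
  refine squeeze_zero (fun j => ContinuousLinearMap.opNorm_nonneg _) (fun j => ?_) h1
  rw [B3_sub]
  exact norm_B3_le _ _ _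

/-- the operation with exchanged arguments and opposite sign -/
noncomputable def negflip {X : Type*} [NormedAddCommGroup X] [NormedSpace ℂ X]
    (B : X →L[ℂ] X →L[ℂ] X) : X →L[ℂ] X →L[ℂ] X := -B.flip

theorem negflip_apply {X : Type*} [NormedAddCommGroup X] [NormedSpace ℂ X]
    (B : X →L[ℂ] X →L[ℂ] X) (x y : X) : negflip B x y = - B y x := by
  simp [negflip]

theorem negflip_tendsto {X : Type*} [NormedAddCommGroup X] [NormedSpace ℂ X]
    {B : ℕ → X →L[ℂ] X →L[ℂ] X} {c : ℕ → ℂ} {B₀ : X →L[ℂ] X →L[ℂ] X}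
    (h : Tendsto (fun j => c j • B j) atTop (𝓝 B₀)) :
    Tendsto (fun j => c j • negflip (B j)) atTop (𝓝 (negflip B₀)) := by
  refine (tendsto_iff_norm_sub_tendsto_zero (E := X →L[ℂ] X →L[ℂ] X)).mpr ?_
  refine ((tendsto_iff_norm_sub_tendsto_zero (E := X →L[ℂ] X →L[ℂ] X)).mp h).congr fun j => ?_
  have : c j • negflip (B j) - negflip B₀ = -(c j • B j - B₀).flip := by
    ext x y
    simp [negflip]
    abel
  rw [this, ContinuousLinearMap.opNorm_neg, ContinuousLinearMap.opNorm_flip]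

/-- derivative along the real line -/
theorem hasDerivAt_real {X : Type*} [NormedAddCommGroup X] [NormedSpace ℂ X]
    {z : ℂ → X} {z' : X} {t : ℝ} (h : HasDerivAt z z' (t : ℂ)) :
    HasDerivAt (fun t : ℝ => z (t : ℂ)) z' t := by
  have h2 := HasDerivAt.scomp (h := fun t : ℝ => (t : ℂ)) (h' := 1) t h
    (Complex.ofRealCLM.hasDerivAt (x := t))
  rw [one_smul] at h2
  exact h2

theorem hasDerivAt_real_neg {X : Type*} [NormedAddCommGroup X] [NormedSpace ℂ X]
    {z : ℂ → X} {z' : X} {t : ℝ} (h : HasDerivAt z z' (-(t : ℂ))) :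
    HasDerivAt (fun t : ℝ => z (-(t : ℂ))) (-z') t := by
  have h1 : HasDerivAt (fun t : ℝ => -(t : ℂ)) (-1 : ℂ) t := by
    exact (Complex.ofRealCLM.hasDerivAt (x := t)).neg
  have h2 := HasDerivAt.scomp (h := fun t : ℝ => -(t : ℂ)) (h' := -1) t h h1
  rw [neg_smul, one_smul] at h2
  exact h2

end op

end Pool.Agent.Lib.MP_db21fa_an.H68
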