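import Pool.Agent.Lib.MP_db21fa_an.TF.Ode
import Pool.Agent.Lib.MP_db21fa_an.TF.Cx

/-!
Module I, part B: the scalar recursion on a bounded range, and some calculus for `LU`.
-/

set_option autoImplicit false
set_option linter.unusedSectionVars false
set_option linter.unusedVariables false

open Filter Topology Metric

namespace Pool.Agent.Lib.MP_db21fa_an.H68

open Pool.Agent.Lib.MP_db21fa_an.TF

/-- continuation of a sequence by the trivial recursion -/
noncomputable def ext2 (ν : ℕ → ℂ) (c : ℕ → Prop) [DecidablePred c] : ℕ → ℂ × ℂ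
  | 0 => (1, 1)
  | m + 1 => ((ext2 ν c m).2,
      if c m then ν (m + 2) else (ext2 ν c m).2 ^ 2 / (ext2 ν c m).1)

theorem aux_div {A : ℂ} (hA : A ≠ 0) (B e : ℂ) : A * (B ^ 2 / A) = B ^ 2 * (1 + e * 0) := by
  field_simp
  ring

theorem ext2_spec (ν : ℕ → ℂ) {e T : ℝ} (he' : 0 < e) (h0 : ν 0 = 1) (h1 : ν 1 = 1)
    (hne : ∀ m : ℕ, (m : ℝ) * e ≤ T → ν m ≠ 0) [DecidablePred fun m : ℕ => ((m : ℝ) + 2) * e ≤ T]
    (m : ℕ) :
    ((m : ℝ) * e ≤ T ∨ m ≤ 1 → (ext2 ν (fun m => ((m : ℝ) + 2) * e ≤ T) m).1 = ν m) ∧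
    (((m : ℝ) + 1) * e ≤ T ∨ m = 0 →
      (ext2 ν (fun m => ((m : ℝ) + 2) * e ≤ T) m).2 = ν (m + 1)) ∧
    (ext2 ν (fun m => ((m : ℝ) + 2) * e ≤ T) m).1 ≠ 0 ∧
    (ext2 ν (fun m => ((m : ℝ) + 2) * e ≤ T) m).2 ≠ 0 := by
  induction m with
  | zero => simp [ext2, h0, h1]
  | succ m ih =>
    obtain ⟨_, ih2, ih3, ih4⟩ := ih
    refine ⟨?_, ?_, ?_, ?_⟩
    · intro h
      simp only [ext2]
      apply ih2
      rcases h with h | h
      · left; push_cast at h; exact h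
      · right; omega
    · intro h
      simp only [ext2]
      rcases h with h | h
      · rw [if_pos]
        push_cast at h
        nlinarith
      · omega
    · simp only [ext2]; exact ih4
    · simp only [ext2]
      split_ifs with hc
      · apply hne
        push_cast
        exact hc
      · exact div_ne_zero (pow_ne_zero _ ih4) ih3

/-- the scalar recursion, used only on a bounded range -/
theorem scalar_rec' {g g' s : ℝ → ℂ} {T T₂ T' : ℝ} (hT : 0 < T) (hT2 : T < T₂) (hT' : T₂ < T')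
    (hg : ∀ t ∈ Set.Ioo (-T') T', HasDerivAt g (g' t) t)
    (hg' : ∀ t ∈ Set.Ioo (-T') T', HasDerivAt g' (s t) t)
    (hs : ContinuousOn s (Set.Ioo (-T') T')) (hg0 : g 0 = 0) (hg'0 : g' 0 = 0)
    {ε : ℕ → ℝ} (hε : ∀ j, 0 < ε j) (hε0 : Tendsto ε atTop (𝓝 0))
    {ν σ : ℕ → ℕ → ℂ} (hν : ∀ᶠ j in atTop, ν j 0 = 1 ∧ ν j 1 = 1)
    (hne : ∀ᶠ j in atTop, ∀ m : ℕ, (m : ℝ) * ε j ≤ T₂ → ν j m ≠ 0)
    (hrec : ∀ᶠ j in atTop, ∀ m : ℕ, ((m : ℝ) + 2) * ε j ≤ T₂ →
      ν j m * ν j (m + 2) = ν j (m + 1) ^ 2 * (1 + (ε j : ℂ) ^ 2 * σ j (m + 1)))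
    (hσ : ∀ δ > 0, ∀ᶠ j in atTop, ∀ m : ℕ, (m : ℝ) * ε j ≤ T₂ → ‖σ j m - s (m * ε j)‖ ≤ δ)
    {δ : ℝ} (hδ : 0 < δ) :
    ∀ᶠ j in atTop, ∀ m : ℕ, m * ε j ≤ T → ‖ν j m - Complex.exp (g (m * ε j))‖ ≤ δ := by
  classical
  let good : ℕ → Prop := fun j => (ν j 0 = 1 ∧ ν j 1 = 1) ∧
    (∀ m : ℕ, (m : ℝ) * ε j ≤ T₂ → ν j m ≠ 0) ∧
    (∀ m : ℕ, ((m : ℝ) + 2) * ε j ≤ T₂ →
      ν j m * ν j (m + 2) = ν j (m + 1) ^ 2 * (1 + (ε j : ℂ) ^ 2 * σ j (m + 1)))
  have hgood : ∀ᶠ j in atTop, good j := by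
    filter_upwards [hν, hne, hrec] with j h1 h2 h3 using ⟨h1, h2, h3⟩
  let ν' : ℕ → ℕ → ℂ := fun j m =>
    if good j then (ext2 (ν j) (fun m => ((m : ℝ) + 2) * ε j ≤ T₂) m).1 else 1
  let σ' : ℕ → ℕ → ℂ := fun j m =>
    if good j then (if ((m : ℝ) + 1) * ε j ≤ T₂ then σ j m else 0) else 0
  have hν'0 : ∀ j, ν' j 0 = 1 := by
    intro j
    simp only [ν']
    split_ifs <;> simp [ext2]
  have hν'1 : ∀ j, ν' j 1 = 1 := by
    intro j
    simp only [ν']
    split_ifs <;> simp [ext2]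
  have hrec' : ∀ j m, ν' j m * ν' j (m + 2) =
      ν' j (m + 1) ^ 2 * (1 + (ε j : ℂ) ^ 2 * σ' j (m + 1)) := by
    intro j m
    simp only [ν', σ']
    by_cases hj : good j
    · simp only [if_pos hj]
      have hsp := ext2_spec (ν j) (hε j) hj.1.1 hj.1.2 hj.2.1
      have hA := hsp m
      have hB := hsp (m + 1)
      have hC : (ext2 (ν j) (fun m => ((m : ℝ) + 2) * ε j ≤ T₂) (m + 2)).1 =
          (if ((m : ℝ) + 2) * ε j ≤ T₂ then ν j (m + 2) else
            (ext2 (ν j) (fun m => ((m : ℝ) + 2) * ε j ≤ T₂) m).2 ^ 2 /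
              (ext2 (ν j) (fun m => ((m : ℝ) + 2) * ε j ≤ T₂) m).1) := by
        simp only [ext2]
      have hD : (ext2 (ν j) (fun m => ((m : ℝ) + 2) * ε j ≤ T₂) (m + 1)).1 =
          (ext2 (ν j) (fun m => ((m : ℝ) + 2) * ε j ≤ T₂) m).2 := by
        simp only [ext2]
      rw [hC]
      have hpos := hε j
      by_cases hc : ((m : ℝ) + 2) * ε j ≤ T₂
      · have hc' : (((m + 1 : ℕ) : ℝ) + 1) * ε j ≤ T₂ := by
          push_cast
          nlinarith
        rw [if_pos hc, if_pos hc', hA.1 (Or.inl (by nlinarith)),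
          hB.1 (Or.inl (by push_cast; nlinarith))]
        exact hj.2.2 m hc
      · have hc' : ¬ (((m + 1 : ℕ) : ℝ) + 1) * ε j ≤ T₂ := by
          push_cast
          intro h
          apply hc
          nlinarith
        rw [if_neg hc, if_neg hc', hD]
        exact aux_div hA.2.2.1 _ _
    · simp only [if_neg hj]
      norm_num
  have hσ' : ∀ δ > 0, ∀ᶠ j in atTop, ∀ m : ℕ, m * ε j ≤ T → ‖σ' j m - s (m * ε j)‖ ≤ δ := by
    intro δ hδ
    have hsmall : ∀ᶠ j in atTop, ε j < T₂ - T := hε0.eventually (gt_mem_nhds (by linarith))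
    filter_upwards [hσ δ hδ, hgood, hsmall] with j h1 h2 h3 m hm
    have : ((m : ℝ) + 1) * ε j ≤ T₂ := by nlinarith
    simp only [σ', if_pos h2, if_pos this]
    exact h1 m (by linarith)
  have key := scalar_rec hT (hT2.trans hT') hg hg' hs hg0 hg'0 hε hε0 hν'0 hν'1 hrec' hσ' hδ
  filter_upwards [key, hgood] with j h1 h2 m hm
  have h3 := h1 m hm
  have h4 : ν' j m = ν j m := by
    simp only [ν', if_pos h2]
    exact (ext2_spec (ν j) (hε j) h2.1.1 h2.1.2 h2.2.1 m).1 (Or.inl (by linarith))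
  rwa [h4] at h3

section LU

variable {E : Type*} [NormedAddCommGroup E] [NormedSpace ℂ E]

theorem LU_const (f : E → ℂ) : LU (fun _ => f) f := by
  intro R
  rw [Metric.tendstoUniformlyOn_iff]
  intro ε hε
  filter_upwards with n x _
  simpa using hε

theorem LU_scalar {c : ℕ → ℂ} {c₀ : ℂ} (h : Tendsto c atTop (𝓝 c₀)) :
    LU (fun j (_ : E) => c j) (fun _ => c₀) := by
  intro R
  rw [Metric.tendstoUniformlyOn_iff]
  intro ε hε
  filter_upwards [(Metric.tendsto_nhds.mp h) ε hε] with n hn x _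
  rw [dist_comm]
  exact hn

theorem LU_add {q q' : ℕ → E → ℂ} {p p' : E → ℂ} (h : LU q p) (h' : LU q' p') :
    LU (fun k x => q k x + q' k x) (fun x => p x + p' x) := by
  intro R
  exact (h R).add (h' R)

theorem LU_sub {q q' : ℕ → E → ℂ} {p p' : E → ℂ} (h : LU q p) (h' : LU q' p') :
    LU (fun k x => q k x - q' k x) (fun x => p x - p' x) := by
  intro R
  exact (h R).sub (h' R)

theorem LU_sum {ι : Type*} (s : Finset ι) {q : ι → ℕ → E → ℂ} {p : ι → E → ℂ}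
    (h : ∀ i ∈ s, LU (q i) (p i)) :
    LU (fun k x => ∑ i ∈ s, q i k x) (fun x => ∑ i ∈ s, p i x) := by
  classical
  induction s using Finset.induction_on with
  | empty => simpa using LU_const (E := E) (fun _ => (0 : ℂ))
  | insert a s ha ih =>
    simp only [Finset.sum_insert ha]
    exact LU_add (h a (Finset.mem_insert_self a s))
      (ih fun i hi => h i (Finset.mem_insert_of_mem hi))

/-- composition with a fixed map which is bounded on balls -/
theorem LU_comp {q : ℕ → E → ℂ} {p : E → ℂ} (h : LU q p) (f : E → E)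
    (hf : ∀ R : ℝ, ∃ R' : ℝ, ∀ x ∈ closedBall (0 : E) R, f x ∈ closedBall (0 : E) R') :
    LU (fun k x => q k (f x)) (fun x => p (f x)) := by
  intro R
  obtain ⟨R', hR'⟩ := hf R
  exact ((h R').comp f).mono fun x hx => hR' x hx

theorem LU_comp_add {q : ℕ → E → ℂ} {p : E → ℂ} (h : LU q p) (a : E) :
    LU (fun k x => q k (a + x)) (fun x => p (a + x)) := by
  refine LU_comp h _ fun R => ⟨‖a‖ + R, fun x hx => ?_⟩
  rw [mem_closedBall_zero_iff] at *
  exact (norm_add_le _ _).trans (by linarith)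

theorem LU_comp_sub {q : ℕ → E → ℂ} {p : E → ℂ} (h : LU q p) (a : E) :
    LU (fun k x => q k (a - x)) (fun x => p (a - x)) := by
  refine LU_comp h _ fun R => ⟨‖a‖ + R, fun x hx => ?_⟩
  rw [mem_closedBall_zero_iff] at *
  exact (norm_sub_le _ _).trans (by linarith)

theorem LU_tendsto {q : ℕ → E → ℂ} {p : E → ℂ} (h : LU q p) (x : E) :
    Tendsto (fun k => q k x) atTop (𝓝 (p x)) :=
  (h ‖x‖).tendsto_at (by simp)

end LU

end Pool.Agent.Lib.MP_db21fa_an.H68
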