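import Pool.Agent.Lib.MP_db21fa_an.H68.FlowA
import Pool.Agent.Lib.MP_db21fa_an.H68.FlowB
import Pool.Agent.Lib.MP_db21fa_an.TF.TwoThree

/-!
Module I, part C: continuous functions on a closed ball, the bilinear operation there, and joint
holomorphy of a power series with coefficients in this space.
-/

set_option autoImplicit false
set_option linter.unusedSectionVars false

open Filter Topology Metric

namespace Pool.Agent.Lib.MP_db21fa_an.H68

open Pool.Agent.Lib.MP_db21fa_an.TF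

variable {E : Type*} [NormedAddCommGroup E] [NormedSpace ℂ E] [FiniteDimensional ℂ E]

theorem compactBall (R : ℝ) : CompactSpace (closedBall (0 : E) R) := by
  have : ProperSpace E := FiniteDimensional.proper ℂ E
  exact isCompact_iff_compactSpace.mp (isCompact_closedBall 0 R)

attribute [local instance] compactBall

/-- restriction to the closed ball -/
noncomputable def rs (R : ℝ) (f : E → ℂ) (hf : Continuous f) : C(closedBall (0 : E) R, ℂ) :=
  ⟨fun u => f u, hf.comp continuous_subtype_val⟩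

theorem half_mem {R : ℝ} {x b : E} (hx : x ∈ closedBall (0 : E) R) (hb : 2 * ‖b‖ ≤ R) :
    (1 / 2 : ℂ) • x + b ∈ closedBall (0 : E) R := by
  rw [mem_closedBall_zero_iff] at *
  have h1 : ‖(1 / 2 : ℂ) • x‖ = ‖x‖ / 2 := by
    rw [norm_smul]; norm_num; ring
  refine (norm_add_le _ _).trans ?_
  rw [h1]
  linarith

theorem half_mem' {R : ℝ} {x b : E} (hx : x ∈ closedBall (0 : E) R) (hb : 2 * ‖b‖ ≤ R) :
    (1 / 2 : ℂ) • x - b ∈ closedBall (0 : E) R := by
  rw [sub_eq_add_neg]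
  exact half_mem hx (by rwa [norm_neg])

theorem half_mem_ball {R : ℝ} {x b : E} (hx : x ∈ ball (0 : E) R) (hb : 2 * ‖b‖ ≤ R) :
    (1 / 2 : ℂ) • x + b ∈ ball (0 : E) R := by
  rw [mem_ball_zero_iff] at *
  have h1 : ‖(1 / 2 : ℂ) • x‖ = ‖x‖ / 2 := by
    rw [norm_smul]; norm_num; ring
  refine (norm_add_le _ _).trans_lt ?_
  rw [h1]
  linarith

/-- the maps `u ↦ u / 2 + b` of the ball -/
noncomputable def hm {R : ℝ} (b : E) (hb : 2 * ‖b‖ ≤ R) :
    C(closedBall (0 : E) R, closedBall (0 : E) R) :=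
  ⟨fun u => ⟨(1 / 2 : ℂ) • (u : E) + b, half_mem u.2 hb⟩, by fun_prop⟩

/-- extension by zero -/
noncomputable def ez {R : ℝ} (f : C(closedBall (0 : E) R, ℂ)) (x : E) : ℂ :=
  open Classical in if h : x ∈ closedBall (0 : E) R then f ⟨x, h⟩ else 0

theorem ez_of_mem {R : ℝ} (f : C(closedBall (0 : E) R, ℂ)) {x : E}
    (h : x ∈ closedBall (0 : E) R) : ez f x = f ⟨x, h⟩ := by
  simp only [ez, dif_pos h]

theorem norm_ez_le {R : ℝ} (f : C(closedBall (0 : E) R, ℂ)) (x : E) : ‖ez f x‖ ≤ ‖f‖ := by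
  by_cases h : x ∈ closedBall (0 : E) R
  · rw [ez_of_mem f h]
    exact f.norm_coe_le_norm _
  · simp only [ez, dif_neg h, norm_zero]
    exact norm_nonneg f

theorem ez_rs {R : ℝ} (f : E → ℂ) (hf : Continuous f) {x : E}
    (h : x ∈ closedBall (0 : E) R) : ez (rs R f hf) x = f x := by
  rw [ez_of_mem _ h]; rfl

theorem rs_apply {R : ℝ} (f : E → ℂ) (hf : Continuous f) (u : closedBall (0 : E) R) :
    rs R f hf u = f u := rfl

theorem continuous_BF {N : ℕ} {o : Fin N → E → ℂ} (ho : ∀ i, Continuous (o i)) (b : Fin N → E)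
    {q q' : E → ℂ} (hq : Continuous q) (hq' : Continuous q') : Continuous (BF o b q q') := by
  unfold BF
  refine continuous_finsetSum _ fun i _ => ?_
  have h1 : Continuous fun u : E => q ((1 / 2 : ℂ) • u - b i) := hq.comp (by fun_prop)
  have h2 : Continuous fun u : E => q' ((1 / 2 : ℂ) • u + b i) := hq'.comp (by fun_prop)
  have h3 : Continuous fun u : E => o i ((1 / 2 : ℂ) • u) := (ho i).comp (by fun_prop)
  exact (h1.mul h2).mul h3

/-- the operation on the ball -/
noncomputable def BR {R : ℝ} {N : ℕ} (b : Fin N → E) (hb : ∀ i, 2 * ‖b i‖ ≤ R)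
    (o : Fin N → E → ℂ) (ho : ∀ i, Continuous (o i)) :
    C(closedBall (0 : E) R, ℂ) →L[ℂ] C(closedBall (0 : E) R, ℂ) →L[ℂ]
      C(closedBall (0 : E) R, ℂ) :=
  B3 (fun i => hm (-b i) (by rw [norm_neg]; exact hb i)) (fun i => hm (b i) (hb i))
    (fun i => rs R (fun u => o i ((1 / 2 : ℂ) • u)) ((ho i).comp (by fun_prop)))

theorem BR_apply {R : ℝ} {N : ℕ} (b : Fin N → E) (hb : ∀ i, 2 * ‖b i‖ ≤ R)
    (o : Fin N → E → ℂ) (ho : ∀ i, Continuous (o i)) (q q' : C(closedBall (0 : E) R, ℂ))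
    (u : closedBall (0 : E) R) :
    BR b hb o ho q q' u = ∑ i, ez q ((1 / 2 : ℂ) • (u : E) - b i) *
      ez q' ((1 / 2 : ℂ) • (u : E) + b i) * o i ((1 / 2 : ℂ) • (u : E)) := by
  unfold BR
  rw [B3_apply]
  refine Finset.sum_congr rfl fun i _ => ?_
  rw [ez_of_mem q (half_mem' u.2 (hb i)), ez_of_mem q' (half_mem u.2 (hb i))]
  congr 2
  congr 1
  simp only [hm, ContinuousMap.coe_mk, sub_eq_add_neg]

theorem BR_rs {R : ℝ} {N : ℕ} (b : Fin N → E) (hb : ∀ i, 2 * ‖b i‖ ≤ R)
    (o : Fin N → E → ℂ) (ho : ∀ i, Continuous (o i)) {q q' : E → ℂ} (hq : Continuous q)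
    (hq' : Continuous q') :
    BR b hb o ho (rs R q hq) (rs R q' hq') = rs R (BF o b q q') (continuous_BF ho b hq hq') := by
  ext u
  rw [BR_apply, rs_apply]
  unfold BF
  refine Finset.sum_congr rfl fun i _ => ?_
  rw [ez_rs q hq (half_mem' u.2 (hb i)), ez_rs q' hq' (half_mem u.2 (hb i))]

/-- convergence of the operations -/
theorem BR_tendsto {R : ℝ} {N : ℕ} (b : Fin N → E) (hb : ∀ i, 2 * ‖b i‖ ≤ R)
    {o : ℕ → Fin N → E → ℂ} (ho : ∀ j i, Continuous (o j i)) {o' : Fin N → E → ℂ}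
    (ho' : ∀ i, Continuous (o' i)) {c : ℕ → ℂ}
    (h : ∀ i, LU (fun j y => c j * o j i y) (o' i)) :
    Tendsto (fun j => c j • BR b hb (o j) (ho j)) atTop (𝓝 (BR b hb o' ho')) := by
  have h1 : ∀ j, c j • BR b hb (o j) (ho j) =
      B3 (fun i => hm (-b i) (by rw [norm_neg]; exact hb i)) (fun i => hm (b i) (hb i))
        (fun i => c j • rs R (fun u => o j i ((1 / 2 : ℂ) • u)) ((ho j i).comp (by fun_prop))) := by
    intro j
    unfold BR
    rw [B3_smul]
  simp only [h1]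
  unfold BR
  refine B3_tendsto _ _ (o := fun j i => c j •
    rs R (fun u => o j i ((1 / 2 : ℂ) • u)) ((ho j i).comp (by fun_prop))) fun i => ?_
  rw [ContinuousMap.tendsto_iff_tendstoUniformly, Metric.tendstoUniformly_iff]
  intro ε hε
  have h2 := (Metric.tendstoUniformlyOn_iff.mp (h i R)) ε hε
  filter_upwards [h2] with j hj x
  have hx : (1 / 2 : ℂ) • (x : E) ∈ closedBall (0 : E) R := by
    have hx' := x.2
    rw [mem_closedBall_zero_iff] at *
    have : ‖(1 / 2 : ℂ) • (x : E)‖ = ‖(x : E)‖ / 2 := by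
      rw [norm_smul]; norm_num; ring
    rw [this]
    have := norm_nonneg (x : E)
    linarith
  exact hj _ hx

/-- the coefficients are holomorphic inside the ball -/
theorem ez_differentiableOn {R : ℝ} {N : ℕ} (b : Fin N → E) (hb : ∀ i, 2 * ‖b i‖ ≤ R)
    (o : Fin N → E → ℂ) (ho : ∀ i, Differentiable ℂ (o i))
    {p : E → ℂ} (hp : Differentiable ℂ p) {A : ℕ → C(closedBall (0 : E) R, ℂ)}
    (h0 : A 0 = rs R p hp.continuous)
    (hrec : ∀ n : ℕ, ((n : ℂ) + 1) • A (n + 1) = ∑ i ∈ Finset.range (n + 1),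
      BR b hb o (fun i => (ho i).continuous) (A i) (A (n - i))) (n : ℕ) :
    DifferentiableOn ℂ (ez (A n)) (ball 0 R) := by
  induction n using Nat.strong_induction_on with
  | _ n ih =>
    rcases n with _ | n
    · rw [h0]
      refine (hp.differentiableOn (s := ball 0 R)).congr fun x hx => ?_
      exact ez_rs p hp.continuous (ball_subset_closedBall hx)
    · have hn : ((n : ℂ) + 1) ≠ 0 := by exact_mod_cast Nat.succ_ne_zero n
      have hform : ∀ x ∈ ball (0 : E) R, ez (A (n + 1)) x =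
          ((n : ℂ) + 1)⁻¹ * ∑ i ∈ Finset.range (n + 1), ∑ k,
            ez (A i) ((1 / 2 : ℂ) • x - b k) * ez (A (n - i)) ((1 / 2 : ℂ) • x + b k) *
              o k ((1 / 2 : ℂ) • x) := by
        intro x hx
        have hx' := ball_subset_closedBall hx
        have h2 := congrArg (fun f : C(closedBall (0 : E) R, ℂ) => f ⟨x, hx'⟩) (hrec n)
        simp only [ContinuousMap.smul_apply, smul_eq_mul, ContinuousMap.sum_apply,
          BR_apply] at h2
        rw [ez_of_mem _ hx', ← h2, ← mul_assoc, inv_mul_cancel₀ hn, one_mul]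
      refine DifferentiableOn.congr ?_ hform
      refine DifferentiableOn.const_mul ?_ _
      refine DifferentiableOn.fun_sum fun i hi => ?_
      refine DifferentiableOn.fun_sum fun k _ => ?_
      have hi' : i < n + 1 := Finset.mem_range.mp hi
      have hsub : Set.MapsTo (fun x : E => (1 / 2 : ℂ) • x - b k) (ball 0 R) (ball 0 R) := by
        intro x hx
        have := half_mem_ball (b := -b k) hx (by rw [norm_neg]; exact hb k)
        simpa [sub_eq_add_neg] using this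
      have hadd : Set.MapsTo (fun x : E => (1 / 2 : ℂ) • x + b k) (ball 0 R) (ball 0 R) := by
        intro x hx
        exact half_mem_ball hx (hb k)
      refine ((DifferentiableOn.comp (ih i hi') ?_ hsub).mul
        (DifferentiableOn.comp (ih (n - i) (by omega)) ?_ hadd)).mul ?_
      · fun_prop
      · fun_prop
      · exact ((ho k).comp (by fun_prop)).differentiableOn

/-- the sum of the series as a function of two variables -/
noncomputable def Fz {R : ℝ} (A : ℕ → C(closedBall (0 : E) R, ℂ)) (Z : E × ℂ) : ℂ :=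
  ∑' n, Z.2 ^ n * ez (A n) Z.1

theorem Fz_eq {R : ℝ} {A : ℕ → C(closedBall (0 : E) R, ℂ)} {x : E}
    (hx : x ∈ closedBall (0 : E) R) {t : ℂ} (hs : Summable fun n => t ^ n • A n) :
    Fz A (x, t) = (∑' n, t ^ n • A n) ⟨x, hx⟩ := by
  have h1 := (ContinuousMap.evalCLM ℂ (⟨x, hx⟩ : closedBall (0 : E) R)).map_tsum hs
  have h2 : (ContinuousMap.evalCLM ℂ (⟨x, hx⟩ : closedBall (0 : E) R)) (∑' n, t ^ n • A n) =
      (∑' n, t ^ n • A n) ⟨x, hx⟩ := rfl
  rw [← h2, h1]
  unfold Fz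
  refine tsum_congr fun n => ?_
  rw [ez_of_mem _ hx]
  rfl

theorem Fz_differentiableOn {R T M : ℝ} (hT : 0 < T) {A : ℕ → C(closedBall (0 : E) R, ℂ)}
    (hA : ∀ n, DifferentiableOn ℂ (ez (A n)) (ball 0 R)) (hM : ∀ n : ℕ, ‖A n‖ ≤ M * (T⁻¹) ^ n)
    {ρ : ℝ} (hρ : ρ < T) :
    DifferentiableOn ℂ (Fz A) (ball 0 R ×ˢ ball 0 ρ) := by
  rcases le_or_gt ρ 0 with h0 | h0
  · rw [ball_eq_empty.mpr h0, Set.prod_empty]
    exact differentiableOn_empty
  have hsum : Summable fun n : ℕ => M * (ρ * T⁻¹) ^ n := by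
    refine (summable_geometric_of_lt_one (by positivity) ?_).mul_left M
    rw [← div_eq_mul_inv, div_lt_one hT]
    exact hρ
  have hbound : ∀ (n : ℕ) (Z : E × ℂ), Z ∈ (ball (0 : E) R ×ˢ ball (0 : ℂ) ρ) →
      ‖Z.2 ^ n * ez (A n) Z.1‖ ≤ M * (ρ * T⁻¹) ^ n := by
    intro n Z hZ
    have h2 : ‖Z.2‖ ≤ ρ := (mem_ball_zero_iff.mp hZ.2).le
    rw [norm_mul, norm_pow]
    calc ‖Z.2‖ ^ n * ‖ez (A n) Z.1‖ ≤ ρ ^ n * (M * (T⁻¹) ^ n) := by
          gcongr
          exact (norm_ez_le _ _).trans (hM n)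
      _ = M * (ρ * T⁻¹) ^ n := by rw [mul_pow]; ring
  have hunif := tendstoUniformlyOn_tsum_nat hsum hbound
  refine differentiableOn_of_limit (F := fun n (Z : E × ℂ) =>
    ∑ k ∈ Finset.range n, Z.2 ^ k * ez (A k) Z.1) (isOpen_ball.prod isOpen_ball) ?_
    hunif.tendstoLocallyUniformlyOn
  intro n
  refine DifferentiableOn.fun_sum fun k _ => ?_
  refine DifferentiableOn.mul ?_ ?_
  · fun_prop
  · refine (hA k).comp (t := ball 0 R) differentiableOn_fst ?_
    intro Z hZ
    exact hZ.1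

end Pool.Agent.Lib.MP_db21fa_an.H68
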