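import Pool.Agent.Lib.MP_db21fa_an.H68.FlowC
import Pool.Agent.Lib.MP_db21fa_an.TF.Approach

/-!
Module I, part D: the discrete operations and their limit.
-/

set_option autoImplicit false
set_option linter.unusedSectionVars false

open Filter Topology Metric

namespace Pool.Agent.Lib.MP_db21fa_an.H68

open Pool.Agent.Lib.MP_db21fa_an.TF

variable {E : Type*} [NormedAddCommGroup E] [NormedSpace ℂ E] [FiniteDimensional ℂ E]

theorem tendsto_matrix_inv {N : ℕ} {M : ℕ → Matrix (Fin N) (Fin N) ℂ}
    {M₀ : Matrix (Fin N) (Fin N) ℂ} (h : Tendsto M atTop (𝓝 M₀)) (h0 : M₀.det ≠ 0) :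
    Tendsto (fun j => (M j)⁻¹) atTop (𝓝 M₀⁻¹) := by
  have h1 : Tendsto (fun j => (M j).det) atTop (𝓝 M₀.det) :=
    ((continuous_id.matrix_det).tendsto M₀).comp h
  have h2 : Tendsto (fun j => (M j).adjugate) atTop (𝓝 M₀.adjugate) :=
    ((continuous_id.matrix_adjugate).tendsto M₀).comp h
  have h3 : ∀ A : Matrix (Fin N) (Fin N) ℂ, A⁻¹ = A.det⁻¹ • A.adjugate := by
    intro A
    rw [Matrix.inv_def, Ring.inverse_eq_inv']
  simp only [h3]
  exact (h1.inv₀ h0).smul h2

section ctx

variable {p : E → ℂ} {N : ℕ} {β : ℕ → E} {c : ℕ → ℂ} {l : ℕ → E →L[ℂ] ℂ} {ε : ℕ → ℝ} {η : E → ℂ}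
  {a b : Fin N → E}

/-- the normalised translates -/
noncomputable def qq (p : E → ℂ) (β : ℕ → E) (c : ℕ → ℂ) (l : ℕ → E →L[ℂ] ℂ) (j : ℕ) (x : E) : ℂ :=
  c j * Complex.exp (l j x) * p (x + β j)

theorem qq_zero (hA : Approach p β c l ε η) (j : ℕ) : qq p β c l j 0 = 1 := by
  simp only [qq, map_zero, Complex.exp_zero, mul_one, zero_add]
  exact hA.one j

theorem c_ne (hA : Approach p β c l ε η) (j : ℕ) : c j ≠ 0 := by
  intro h
  have := hA.one j
  rw [h, zero_mul] at this
  exact zero_ne_one this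

theorem qq_differentiable (hp : Differentiable ℂ p) (j : ℕ) :
    Differentiable ℂ (qq p β c l j) := by
  have h1 : Differentiable ℂ fun x : E => Complex.exp (l j x) := by fun_prop
  have h2 : Differentiable ℂ fun x : E => p (x + β j) := hp.comp (by fun_prop)
  exact (h1.const_mul (c j)).mul h2

theorem qq_eq (j : ℕ) (x : E) : qq p β c l j x = c j * Qz p (l j) (β j) 1 x := by
  simp only [qq, Qz, Int.cast_one, one_mul, one_smul]
  ring

theorem Qz_zero (l : E →L[ℂ] ℂ) (β : E) (x : E) : Qz p l β 0 x = p x := by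
  simp [Qz]

theorem Qz_differentiable (hp : Differentiable ℂ p) (l : E →L[ℂ] ℂ) (β : E) (m : ℤ) :
    Differentiable ℂ (Qz p l β m) := by
  have h1 : Differentiable ℂ fun x : E => Complex.exp (m * l x) := by fun_prop
  have h2 : Differentiable ℂ fun x : E => p (x + (m : ℂ) • β) := hp.comp (by fun_prop)
  exact h1.mul h2

theorem differentiable_oF {p q D : E → ℂ} (hp : Differentiable ℂ p) (hD : Differentiable ℂ D)
    (a b : Fin N → E) (i : Fin N) : Differentiable ℂ (oF p q D a b i) := by
  unfold oF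
  refine Differentiable.fun_sum fun k _ => ?_
  have h1 : Differentiable ℂ fun y : E => p (a k - y) := hp.comp (by fun_prop)
  have h2 : Differentiable ℂ fun y : E => p (a k + y) := hp.comp (by fun_prop)
  have h3 : Differentiable ℂ fun y : E => D (a k - y) := hD.comp (by fun_prop)
  have h4 : Differentiable ℂ fun y : E => D (a k + y) := hD.comp (by fun_prop)
  exact ((h1.mul h4).sub (h2.mul h3)).const_mul _

theorem mm_tendsto (hA : Approach p β c l ε η) (a b : Fin N → E) :
    Tendsto (fun j => mm (PK p (qq p β c l j)) a b) atTop (𝓝 (mm (PK p p) a b)) := by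
  refine tendsto_pi_nhds.mpr fun i => tendsto_pi_nhds.mpr fun k => ?_
  simp only [mm, Matrix.of_apply, PK]
  exact tendsto_const_nhds.mul (LU_tendsto hA.lim (a i + b k))

theorem det_ne (hA : Approach p β c l ε η) (hdet : (mm (PK p p) a b).det ≠ 0) :
    ∀ᶠ j in atTop, (mm (PK p (qq p β c l j)) a b).det ≠ 0 :=
  (((continuous_id.matrix_det).tendsto _).comp (mm_tendsto hA a b)).eventually_ne hdet

/-- the discrete odd coefficients, divided by `ε`, converge -/
theorem oj_LU (hp : Differentiable ℂ p) (hA : Approach p β c l ε η)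
    (hdet : (mm (PK p p) a b).det ≠ 0) (i : Fin N) :
    LU (fun j y => ((ε j : ℂ))⁻¹ * oF p (qq p β c l j) (qq p β c l j) a b i y)
      (oF p p η a b i) := by
  have hinv := tendsto_matrix_inv (mm_tendsto hA a b) hdet
  have h1 : (fun (j : ℕ) (y : E) => ((ε j : ℂ))⁻¹ *
      oF p (qq p β c l j) (qq p β c l j) a b i y) = fun j y => ∑ k,
        (mm (PK p (qq p β c l j)) a b)⁻¹ i k *
          (p (a k - y) * ((qq p β c l j (a k + y) - p (a k + y)) / ε j) -
            p (a k + y) * ((qq p β c l j (a k - y) - p (a k - y)) / ε j)) := by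
    funext j y
    rw [← oF_sub (N := N) a b i y]
    simp only [oF]
    rw [Finset.mul_sum]
    refine Finset.sum_congr rfl fun k _ => ?_
    simp only [div_eq_mul_inv]
    ring
  have h0 : oF p p η a b i = fun y => ∑ k, (mm (PK p p) a b)⁻¹ i k *
      (p (a k - y) * η (a k + y) - p (a k + y) * η (a k - y)) := rfl
  rw [h1, h0]
  refine LU_sum _ fun k _ => ?_
  have hc : Continuous p := hp.continuous
  have hη : Continuous η := hA.diff.continuous
  have hM : LU (fun j (_ : E) => (mm (PK p (qq p β c l j)) a b)⁻¹ i k)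
      (fun _ => (mm (PK p p) a b)⁻¹ i k) := by
    refine LU_scalar ?_
    exact (tendsto_pi_nhds.mp ((tendsto_pi_nhds.mp hinv) i)) k
  have hD1 : LU (fun j y => (qq p β c l j (a k + y) - p (a k + y)) / ε j)
      (fun y => η (a k + y)) := LU_comp_add hA.sec (a k)
  have hD2 : LU (fun j y => (qq p β c l j (a k - y) - p (a k - y)) / ε j)
      (fun y => η (a k - y)) := LU_comp_sub hA.sec (a k)
  have c1 : Continuous fun y : E => p (a k - y) := hc.comp (by fun_prop)
  have c2 : Continuous fun y : E => p (a k + y) := hc.comp (by fun_prop)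
  have c3 : Continuous fun y : E => η (a k + y) := hη.comp (by fun_prop)
  have c4 : Continuous fun y : E => η (a k - y) := hη.comp (by fun_prop)
  refine LU.mul hM (LU_sub (LU.mul (LU_const _) hD1 c1 c3) (LU.mul (LU_const _) hD2 c2 c4))
    continuous_const ((c1.mul c3).sub (c2.mul c4))

/-- the two-term relation for the translates -/
theorem two_term' (hr : RankLE (PK p p) N) (hA : Approach p β c l ε η) {j : ℕ}
    (hj : (mm (PK p (qq p β c l j)) a b).det ≠ 0) (m : ℤ) (u : E) :
    Qz p (l j) (β j) m 0 * Qz p (l j) (β j) (m + 1) u -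
      Qz p (l j) (β j) m u * Qz p (l j) (β j) (m + 1) 0 =
      BF (oF p (qq p β c l j) (qq p β c l j) a b) b (Qz p (l j) (β j) m)
        (Qz p (l j) (β j) (m + 1)) u :=
  two_term hr (l j) (β j) (c j) (c_ne hA j) (qq p β c l j) (fun _ => rfl) hj m u

theorem BF_smul_right {o : Fin N → E → ℂ} {b : Fin N → E} {q q' : E → ℂ} (r : ℂ) (u : E) :
    BF o b q (fun x => r * q' x) u = r * BF o b q q' u := by
  simp only [BF]
  rw [Finset.mul_sum]
  refine Finset.sum_congr rfl fun i _ => ?_
  ring

theorem BF_smul_left {o : Fin N → E → ℂ} {b : Fin N → E} {q q' : E → ℂ} (r : ℂ) (u : E) :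
    BF o b (fun x => r * q x) q' u = r * BF o b q q' u := by
  simp only [BF]
  rw [Finset.mul_sum]
  refine Finset.sum_congr rfl fun i _ => ?_
  ring

/-- the difference `q_j - p` -/
theorem D_eq (hp0 : p 0 = 1) (hr : RankLE (PK p p) N) (hA : Approach p β c l ε η) {j : ℕ}
    (hj : (mm (PK p (qq p β c l j)) a b).det ≠ 0) (u : E) :
    qq p β c l j u - p u =
      BF (oF p (qq p β c l j) (qq p β c l j) a b) b p (qq p β c l j) u := by
  have h := two_term' hr hA hj 0 u
  have hQ0 : Qz p (l j) (β j) 0 = p := funext fun x => Qz_zero (l j) (β j) x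
  rw [zero_add, hQ0, hp0] at h
  have hq : qq p β c l j = fun x => c j * Qz p (l j) (β j) 1 x := funext fun x => qq_eq j x
  have h1 : BF (oF p (qq p β c l j) (qq p β c l j) a b) b p (qq p β c l j) u =
      c j * BF (oF p (qq p β c l j) (qq p β c l j) a b) b p (Qz p (l j) (β j) 1) u := by
    rw [← BF_smul_right (c j) u, ← hq]
  rw [h1, ← h]
  have h2 := qq_zero hA j
  rw [qq_eq] at h2
  rw [qq_eq]
  linear_combination (p u) * h2

/-- the secant direction is the value of the limit operation at `(p, p)` -/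
theorem eta_eq (hp : Differentiable ℂ p) (hp0 : p 0 = 1) (hr : RankLE (PK p p) N)
    (hA : Approach p β c l ε η) (hdet : (mm (PK p p) a b).det ≠ 0) (u : E) :
    η u = BF (oF p p η a b) b p p u := by
  have h1 := LU_tendsto hA.sec u
  have h2 : Tendsto (fun j => (qq p β c l j u - p u) / (ε j : ℂ)) atTop
      (𝓝 (BF (oF p p η a b) b p p u)) := by
    have h3 : Tendsto (fun j => ∑ i, p ((1 / 2 : ℂ) • u - b i) *
        qq p β c l j ((1 / 2 : ℂ) • u + b i) *
          (((ε j : ℂ))⁻¹ * oF p (qq p β c l j) (qq p β c l j) a b i ((1 / 2 : ℂ) • u))) atTop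
        (𝓝 (BF (oF p p η a b) b p p u)) := by
      simp only [BF]
      refine tendsto_finsetSum _ fun i _ => ?_
      exact (tendsto_const_nhds.mul (LU_tendsto hA.lim _)).mul
        (LU_tendsto (oj_LU hp hA hdet i) _)
    refine h3.congr' ?_
    filter_upwards [det_ne hA hdet] with j hj
    rw [D_eq hp0 hr hA hj u]
    simp only [BF, div_eq_mul_inv, Finset.sum_mul]
    refine Finset.sum_congr rfl fun i _ => ?_
    ring
  exact tendsto_nhds_unique h1 h2

end ctx

end Pool.Agent.Lib.MP_db21fa_an.H68
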