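import Pool.Agent.Lib.MP_db21fa_an.H68.FlowD

/-!
Module I, part E: the translates follow the flow.
-/

set_option autoImplicit false
set_option linter.unusedSectionVars false

open Filter Topology Metric

namespace Pool.Agent.Lib.MP_db21fa_an.H68

open Pool.Agent.Lib.MP_db21fa_an.TF

variable {E : Type*} [NormedAddCommGroup E] [NormedSpace ℂ E] [FiniteDimensional ℂ E]

attribute [local instance] compactBall

theorem eventually_shift {P : ℕ → Prop} (J : ℕ) (h : ∀ᶠ j in atTop, P (j + J)) :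
    ∀ᶠ j in atTop, P j := by
  rw [← Filter.map_add_atTop_eq_nat J, Filter.eventually_map]
  exact h

section ctx

variable {p : E → ℂ} {N : ℕ} {β : ℕ → E} {c : ℕ → ℂ} {l : ℕ → E →L[ℂ] ℂ} {ε : ℕ → ℝ} {η : E → ℂ}
  {a b : Fin N → E} {R : ℝ}

theorem rs_Qz_ne (hp : Differentiable ℂ p) (hp0 : p 0 = 1) (hR : 0 < R) (l : E →L[ℂ] ℂ) (β : E)
    (m : ℤ) : rs R (Qz p l β m) (Qz_differentiable hp l β m).continuous ≠ 0 := by
  intro h
  have hd := dense_ne_zero hp (f := p) (by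
    intro h0
    rw [h0] at hp0
    exact zero_ne_one hp0)
  obtain ⟨y, hy, hy'⟩ := hd.inter_open_nonempty (ball ((m : ℂ) • β) R) isOpen_ball
    ⟨_, mem_ball_self hR⟩
  have hx : y - (m : ℂ) • β ∈ closedBall (0 : E) R := by
    rw [mem_closedBall_zero_iff, ← dist_eq_norm]
    exact (mem_ball.mp hy).le
  have h1 := congrArg (fun f : C(closedBall (0 : E) R, ℂ) => f ⟨_, hx⟩) h
  simp only [rs_apply, ContinuousMap.zero_apply, Qz, sub_add_cancel] at h1
  rcases mul_eq_zero.mp h1 with h2 | h2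
  · exact Complex.exp_ne_zero _ h2
  · exact hy' h2

theorem cont_oF {p q D : E → ℂ} (hp : Differentiable ℂ p) (hD : Differentiable ℂ D)
    (a b : Fin N → E) (i : Fin N) : Continuous (oF p q D a b i) :=
  (differentiable_oF hp hD a b i).continuous

/-- the translates follow the flow, in positive direction -/
theorem EU_pos (hp : Differentiable ℂ p) (hp0 : p 0 = 1) (hr : RankLE (PK p p) N)
    (hA : Approach p β c l ε η) (hdet : (mm (PK p p) a b).det ≠ 0) (hR : 0 < R)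
    (hb : ∀ i, 2 * ‖b i‖ ≤ R) {T : ℝ} {A : ℕ → C(closedBall (0 : E) R, ℂ)}
    (hA0 : A 0 = rs R p hp.continuous)
    (hder : ∀ t : ℂ, ‖t‖ < T → Summable (fun n => t ^ n • A n) ∧
      HasDerivAt (fun t : ℂ => ∑' n, t ^ n • A n)
        (BR b hb (oF p p η a b) (cont_oF hp hA.diff a b) (∑' n, t ^ n • A n)
          (∑' n, t ^ n • A n)) t)
    {T₂ : ℝ} (hT2 : 0 < T₂) (hT2' : T₂ < T) {δ : ℝ} (hδ : 0 < δ) :
    ∀ᶠ j in atTop, ∀ m : ℕ, m * ε j ≤ T₂ → Qz p (l j) (β j) m 0 ≠ 0 ∧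
      ∀ x ∈ closedBall (0 : E) R, ‖(Qz p (l j) (β j) m 0)⁻¹ * Qz p (l j) (β j) m x -
        Fz A (x, ((m * ε j : ℝ) : ℂ))‖ ≤ δ := by
  obtain ⟨J, hJ⟩ := eventually_atTop.mp (det_ne (a := a) (b := b) hA hdet)
  have h0mem : (0 : E) ∈ closedBall (0 : E) R := mem_closedBall_self hR.le
  have hQc : ∀ (j : ℕ) (m : ℤ), Continuous (Qz p (l j) (β j) m) := fun j m =>
    (Qz_differentiable hp (l j) (β j) m).continuous
  have hz0 : (∑' n, (0 : ℂ) ^ n • A n) = A 0 := by
    rw [tsum_eq_single 0]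
    · simp
    · intro n hn
      simp [zero_pow hn]
  have hoc : ∀ j i, Continuous (oF p (qq p β c l j) (qq p β c l j) a b i) := fun j i =>
    cont_oF hp (qq_differentiable hp j) a b i
  have key := euler (X := C(closedBall (0 : E) R, ℂ))
    (ContinuousMap.evalCLM ℂ (⟨0, h0mem⟩ : closedBall (0 : E) R))
    (BR b hb (oF p p η a b) (cont_oF hp hA.diff a b))
    (fun t : ℝ => ∑' n, (t : ℂ) ^ n • A n) hT2
    (by
      intro t ht
      refine hasDerivAt_real (hder (t : ℂ) ?_).2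
      rw [Complex.norm_real, Real.norm_eq_abs, abs_of_nonneg ht.1]
      exact ht.2.trans_lt hT2')
    (by
      simp only [Complex.ofReal_zero, hz0, hA0]
      exact hp0)
    (ε := fun j => ε (j + J)) (fun j => hA.pos _)
    (hA.zero.comp (tendsto_add_atTop_nat J))
    (𝔅' := fun j => BR b hb (oF p (qq p β c l (j + J)) (qq p β c l (j + J)) a b) (hoc (j + J)))
    ((BR_tendsto b hb hoc (cont_oF hp hA.diff a b) (fun i => oj_LU hp hA hdet i)).comp
      (tendsto_add_atTop_nat J))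
    (Q := fun j m => rs R (Qz p (l (j + J)) (β (j + J)) m) (hQc (j + J) m))
    (by
      intro j
      simp only [Complex.ofReal_zero, hz0, hA0]
      ext u
      simp only [rs_apply, Nat.cast_zero, Qz_zero])
    (fun j m => rs_Qz_ne hp hp0 hR _ _ _)
    (by
      intro j m
      rw [BR_rs b hb _ (hoc (j + J)) (hQc (j + J) m) (hQc (j + J) ((m + 1 : ℕ) : ℤ))]
      ext u
      have h := two_term' hr hA (hJ (j + J) (Nat.le_add_left J j)) (m : ℤ) (u : E)
      have hcast : ((m + 1 : ℕ) : ℤ) = (m : ℤ) + 1 := by push_cast; ring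
      simp only [hcast]
      simp only [rs_apply]
      rw [← h]
      simp only [ContinuousMap.sub_apply, ContinuousMap.smul_apply, smul_eq_mul, rs_apply]
      change Qz p (l (j + J)) (β (j + J)) (m : ℤ) 0 * _ -
        Qz p (l (j + J)) (β (j + J)) ((m : ℤ) + 1) 0 * _ = _
      ring) hδ
  refine eventually_shift J ?_
  filter_upwards [key] with j hj m hm
  obtain ⟨h1, h2⟩ := hj m hm
  refine ⟨h1, fun x hx => ?_⟩
  have hsum := (hder (((m * ε (j + J) : ℝ)) : ℂ) (by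
    rw [Complex.norm_real, Real.norm_eq_abs, abs_of_nonneg
      (mul_nonneg (Nat.cast_nonneg m) (hA.pos _).le)]
    exact hm.trans_lt hT2')).1
  rw [Fz_eq hx hsum]
  have h3 := ((ContinuousMap.norm_le _ hδ.le).mp h2) ⟨x, hx⟩
  exact h3

/-- the translates follow the flow, in negative direction -/
theorem EU_neg (hp : Differentiable ℂ p) (hp0 : p 0 = 1) (hr : RankLE (PK p p) N)
    (hA : Approach p β c l ε η) (hdet : (mm (PK p p) a b).det ≠ 0) (hR : 0 < R)
    (hb : ∀ i, 2 * ‖b i‖ ≤ R) {T : ℝ} {A : ℕ → C(closedBall (0 : E) R, ℂ)}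
    (hA0 : A 0 = rs R p hp.continuous)
    (hder : ∀ t : ℂ, ‖t‖ < T → Summable (fun n => t ^ n • A n) ∧
      HasDerivAt (fun t : ℂ => ∑' n, t ^ n • A n)
        (BR b hb (oF p p η a b) (cont_oF hp hA.diff a b) (∑' n, t ^ n • A n)
          (∑' n, t ^ n • A n)) t)
    {T₂ : ℝ} (hT2 : 0 < T₂) (hT2' : T₂ < T) {δ : ℝ} (hδ : 0 < δ) :
    ∀ᶠ j in atTop, ∀ m : ℕ, m * ε j ≤ T₂ → Qz p (l j) (β j) (-(m : ℤ)) 0 ≠ 0 ∧
      ∀ x ∈ closedBall (0 : E) R, ‖(Qz p (l j) (β j) (-(m : ℤ)) 0)⁻¹ *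
        Qz p (l j) (β j) (-(m : ℤ)) x - Fz A (x, -((m * ε j : ℝ) : ℂ))‖ ≤ δ := by
  obtain ⟨J, hJ⟩ := eventually_atTop.mp (det_ne (a := a) (b := b) hA hdet)
  have h0mem : (0 : E) ∈ closedBall (0 : E) R := mem_closedBall_self hR.le
  have hQc : ∀ (j : ℕ) (m : ℤ), Continuous (Qz p (l j) (β j) m) := fun j m =>
    (Qz_differentiable hp (l j) (β j) m).continuous
  have hz0 : (∑' n, (0 : ℂ) ^ n • A n) = A 0 := by
    rw [tsum_eq_single 0]
    · simp
    · intro n hn
      simp [zero_pow hn]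
  have hoc : ∀ j i, Continuous (oF p (qq p β c l j) (qq p β c l j) a b i) := fun j i =>
    cont_oF hp (qq_differentiable hp j) a b i
  have key := euler (X := C(closedBall (0 : E) R, ℂ))
    (ContinuousMap.evalCLM ℂ (⟨0, h0mem⟩ : closedBall (0 : E) R))
    (negflip (BR b hb (oF p p η a b) (cont_oF hp hA.diff a b)))
    (fun t : ℝ => ∑' n, (-(t : ℂ)) ^ n • A n) hT2
    (by
      intro t ht
      rw [negflip_apply]
      refine hasDerivAt_real_neg (z := fun t : ℂ => ∑' n, t ^ n • A n) (hder (-(t : ℂ)) ?_).2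
      rw [norm_neg, Complex.norm_real, Real.norm_eq_abs, abs_of_nonneg ht.1]
      exact ht.2.trans_lt hT2')
    (by
      simp only [Complex.ofReal_zero, neg_zero, hz0, hA0]
      exact hp0)
    (ε := fun j => ε (j + J)) (fun j => hA.pos _)
    (hA.zero.comp (tendsto_add_atTop_nat J))
    (𝔅' := fun j => negflip
      (BR b hb (oF p (qq p β c l (j + J)) (qq p β c l (j + J)) a b) (hoc (j + J))))
    ((negflip_tendsto (BR_tendsto b hb hoc (cont_oF hp hA.diff a b)
      (fun i => oj_LU hp hA hdet i))).comp (tendsto_add_atTop_nat J))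
    (Q := fun j m => rs R (Qz p (l (j + J)) (β (j + J)) (-(m : ℤ))) (hQc (j + J) (-(m : ℤ))))
    (by
      intro j
      simp only [Complex.ofReal_zero, neg_zero, hz0, hA0]
      ext u
      simp only [rs_apply, Nat.cast_zero, neg_zero, Qz_zero])
    (fun j m => rs_Qz_ne hp hp0 hR _ _ _)
    (by
      intro j m
      simp only [negflip_apply]
      rw [BR_rs b hb _ (hoc (j + J)) (hQc (j + J) (-((m + 1 : ℕ) : ℤ))) (hQc (j + J) (-(m : ℤ)))]
      ext u
      have h := two_term' hr hA (hJ (j + J) (Nat.le_add_left J j)) (-((m + 1 : ℕ) : ℤ)) (u : E)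
      have hcast : (-((m + 1 : ℕ) : ℤ)) + 1 = -(m : ℤ) := by push_cast; ring
      rw [hcast] at h
      simp only [ContinuousMap.sub_apply, ContinuousMap.smul_apply, ContinuousMap.neg_apply,
        smul_eq_mul, rs_apply]
      rw [← h]
      change Qz p (l (j + J)) (β (j + J)) (-(m : ℤ)) 0 * _ -
        Qz p (l (j + J)) (β (j + J)) (-((m + 1 : ℕ) : ℤ)) 0 * _ = _
      ring) hδ
  refine eventually_shift J ?_
  filter_upwards [key] with j hj m hm
  obtain ⟨h1, h2⟩ := hj m hm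
  refine ⟨h1, fun x hx => ?_⟩
  have hsum := (hder (-((m * ε (j + J) : ℝ) : ℂ)) (by
    rw [norm_neg, Complex.norm_real, Real.norm_eq_abs, abs_of_nonneg
      (mul_nonneg (Nat.cast_nonneg m) (hA.pos _).le)]
    exact hm.trans_lt hT2')).1
  rw [Fz_eq hx hsum]
  have h3 := ((ContinuousMap.norm_le _ hδ.le).mp h2) ⟨x, hx⟩
  exact h3

/-- the translates follow the flow -/
theorem EU (hp : Differentiable ℂ p) (hp0 : p 0 = 1) (hr : RankLE (PK p p) N)
    (hA : Approach p β c l ε η) (hdet : (mm (PK p p) a b).det ≠ 0) (hR : 0 < R)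
    (hb : ∀ i, 2 * ‖b i‖ ≤ R) {T : ℝ} {A : ℕ → C(closedBall (0 : E) R, ℂ)}
    (hA0 : A 0 = rs R p hp.continuous)
    (hder : ∀ t : ℂ, ‖t‖ < T → Summable (fun n => t ^ n • A n) ∧
      HasDerivAt (fun t : ℂ => ∑' n, t ^ n • A n)
        (BR b hb (oF p p η a b) (cont_oF hp hA.diff a b) (∑' n, t ^ n • A n)
          (∑' n, t ^ n • A n)) t)
    {T₂ : ℝ} (hT2 : 0 < T₂) (hT2' : T₂ < T) {δ : ℝ} (hδ : 0 < δ) :
    ∀ᶠ j in atTop, ∀ m : ℤ, |(m : ℝ)| * ε j ≤ T₂ → Qz p (l j) (β j) m 0 ≠ 0 ∧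
      ∀ x ∈ closedBall (0 : E) R, ‖(Qz p (l j) (β j) m 0)⁻¹ * Qz p (l j) (β j) m x -
        Fz A (x, ((m * ε j : ℝ) : ℂ))‖ ≤ δ := by
  filter_upwards [EU_pos hp hp0 hr hA hdet hR hb hA0 hder hT2 hT2' hδ,
    EU_neg hp hp0 hr hA hdet hR hb hA0 hder hT2 hT2' hδ] with j h1 h2 m hm
  rcases Int.eq_nat_or_neg m with ⟨k, rfl | rfl⟩
  · have := h1 k (by simpa using hm)
    simpa using this
  · have := h2 k (by simpa using hm)
    simpa using this

end ctx

end Pool.Agent.Lib.MP_db21fa_an.H68
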