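import Pool.Agent.Lib.MP_db21fa_an.H68.FlowE

/-!
Module I, part F: the flow of the normalised translates, as a package.
-/

set_option autoImplicit false
set_option linter.unusedSectionVars false

open Filter Topology Metric

namespace Pool.Agent.Lib.MP_db21fa_an.H68

open Pool.Agent.Lib.MP_db21fa_an.TF

variable {E : Type*} [NormedAddCommGroup E] [NormedSpace ℂ E] [FiniteDimensional ℂ E]

attribute [local instance] compactBall

/-- the flow of the translates with value `1` at `0` -/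
structure FD (p : E → ℂ) (β : ℕ → E) (l : ℕ → E →L[ℂ] ℂ) (ε : ℕ → ℝ) (η : E → ℂ)
    (R T : ℝ) (F : E × ℂ → ℂ) : Prop where
  diff : DifferentiableOn ℂ F (ball 0 R ×ˢ ball 0 T)
  zero : ∀ x ∈ ball (0 : E) R, F (x, 0) = p x
  der : ∀ x ∈ ball (0 : E) R, HasDerivAt (fun t : ℂ => F (x, t)) (η x) 0
  lim : ∀ T₂ : ℝ, 0 < T₂ → T₂ < T → ∀ δ > 0, ∀ᶠ j in atTop, ∀ m : ℤ, |(m : ℝ)| * ε j ≤ T₂ →
    Qz p (l j) (β j) m 0 ≠ 0 ∧ ∀ x ∈ ball (0 : E) R,
      ‖(Qz p (l j) (β j) m 0)⁻¹ * Qz p (l j) (β j) m x - F (x, ((m * ε j : ℝ) : ℂ))‖ ≤ δ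

section ctx

variable {p : E → ℂ} {N : ℕ} {β : ℕ → E} {c : ℕ → ℂ} {l : ℕ → E →L[ℂ] ℂ} {ε : ℕ → ℝ} {η : E → ℂ}
  {a b : Fin N → E} {R : ℝ}

theorem exists_FD (hp : Differentiable ℂ p) (hp0 : p 0 = 1) (hr : RankLE (PK p p) N)
    (hA : Approach p β c l ε η) (hdet : (mm (PK p p) a b).det ≠ 0) (hR : 0 < R)
    (hb : ∀ i, 2 * ‖b i‖ ≤ R) : ∃ (T : ℝ) (F : E × ℂ → ℂ), 0 < T ∧ FD p β l ε η R T F := by
  obtain ⟨T, M, A, hT, hA0, hrec, hM, hder⟩ := qode
    (BR b hb (oF p p η a b) (cont_oF hp hA.diff a b)) (rs R p hp.continuous)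
  have hez := ez_differentiableOn b hb (oF p p η a b) (fun i => differentiable_oF hp hA.diff a b i)
    hp hA0 hrec
  have hsum : ∀ t : ℂ, ‖t‖ < T → Summable (fun n => t ^ n • A n) := fun t ht => (hder t ht).1
  have hz0 : (∑' n, (0 : ℂ) ^ n • A n) = A 0 := by
    rw [tsum_eq_single 0]
    · simp
    · intro n hn
      simp [zero_pow hn]
  have hT0 : ‖(0 : ℂ)‖ < T := by rwa [norm_zero]
  refine ⟨T / 2, Fz A, by positivity, ⟨?_, ?_, ?_, ?_⟩⟩
  · exact Fz_differentiableOn hT hez hM (by linarith)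
  · intro x hx
    have hx' := ball_subset_closedBall hx
    rw [Fz_eq hx' (hsum 0 hT0), hz0, hA0]
    rfl
  · intro x hx
    have hx' := ball_subset_closedBall hx
    have h1 := (hder 0 hT0).2
    have h2 := (ContinuousMap.evalCLM ℂ
      (⟨x, hx'⟩ : closedBall (0 : E) R)).hasFDerivAt.comp_hasDerivAt (0 : ℂ) h1
    have h3 : (ContinuousMap.evalCLM ℂ (⟨x, hx'⟩ : closedBall (0 : E) R))
        (BR b hb (oF p p η a b) (cont_oF hp hA.diff a b) (∑' n, (0 : ℂ) ^ n • A n)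
          (∑' n, (0 : ℂ) ^ n • A n)) = η x := by
      rw [hz0, hA0, BR_rs, eta_eq hp hp0 hr hA hdet x]
      rfl
    rw [h3] at h2
    refine h2.congr_of_eventuallyEq ?_
    have hball : ball (0 : ℂ) T ∈ 𝓝 (0 : ℂ) := ball_mem_nhds _ hT
    filter_upwards [hball] with t ht
    rw [Fz_eq hx' (hsum t (mem_ball_zero_iff.mp ht))]
    rfl
  · intro T₂ h1 h2 δ hδ
    filter_upwards [EU hp hp0 hr hA hdet hR hb hA0 hder h1 (by linarith : T₂ < T) hδ] with j hj m hm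
    exact ⟨(hj m hm).1, fun x hx => (hj m hm).2 x (ball_subset_closedBall hx)⟩

end ctx

end Pool.Agent.Lib.MP_db21fa_an.H68
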