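import Pool.Agent.Lib.MP_db21fa_an.H68.FlowF

/-!
Module I, part G: uniform convergence along grids; the two-sided scalar recursion.
-/

set_option autoImplicit false
set_option linter.unusedSectionVars false

open Filter Topology Metric

namespace Pool.Agent.Lib.MP_db21fa_an.H68

open Pool.Agent.Lib.MP_db21fa_an.TF

/-- uniform convergence along the grids `ε j * ℤ` -/
def UC (ε : ℕ → ℝ) (T : ℝ) (f : ℕ → ℤ → ℂ) (φ : ℝ → ℂ) : Prop :=
  ∀ δ > 0, ∀ᶠ j in atTop, ∀ m : ℤ, |(m : ℝ)| * ε j ≤ T → ‖f j m - φ (m * ε j)‖ ≤ δ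

theorem UC_const {ε : ℕ → ℝ} {T : ℝ} {c : ℕ → ℂ} {c₀ : ℂ} (h : Tendsto c atTop (𝓝 c₀)) :
    UC ε T (fun j _ => c j) (fun _ => c₀) := by
  intro δ hδ
  filter_upwards [(Metric.tendsto_nhds.mp h) δ hδ] with j hj m _
  rw [← dist_eq_norm]
  exact hj.le

theorem grid_mem {e T : ℝ} (he : 0 < e) {m : ℤ} (h : |(m : ℝ)| * e ≤ T) :
    (m : ℝ) * e ∈ Set.Icc (-T) T := by
  rw [Set.mem_Icc, ← abs_le, abs_mul, abs_of_pos he]
  exact h

theorem UC_mul {ε : ℕ → ℝ} (hε : ∀ j, 0 < ε j) {T : ℝ} {f g : ℕ → ℤ → ℂ} {φ ψ : ℝ → ℂ}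
    (hf : UC ε T f φ) (hg : UC ε T g ψ) (hφ : ContinuousOn φ (Set.Icc (-T) T))
    (hψ : ContinuousOn ψ (Set.Icc (-T) T)) :
    UC ε T (fun j m => f j m * g j m) (fun t => φ t * ψ t) := by
  obtain ⟨B, hB⟩ := isCompact_Icc.exists_bound_of_continuousOn hφ
  obtain ⟨B', hB'⟩ := isCompact_Icc.exists_bound_of_continuousOn hψ
  intro δ hδ
  set K : ℝ := |B| + |B'| + 2 with hK
  have hK0 : 0 < K := by positivity
  have hd : 0 < min 1 (δ / K) := lt_min one_pos (by positivity)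
  filter_upwards [hf _ hd, hg _ hd] with j h1 h2 m hm
  have hmem := grid_mem (hε j) hm
  have e1 := h1 m hm
  have e2 := h2 m hm
  have b1 := (hB _ hmem).trans (le_abs_self B)
  have b2 := (hB' _ hmem).trans (le_abs_self B')
  set u := f j m
  set v := g j m
  set x := φ (m * ε j)
  set y := ψ (m * ε j)
  have hv : ‖v‖ ≤ |B'| + 1 := by
    calc ‖v‖ = ‖(v - y) + y‖ := by ring_nf
      _ ≤ ‖v - y‖ + ‖y‖ := norm_add_le _ _
      _ ≤ |B'| + 1 := by
        have := e2.trans (min_le_left _ _)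
        linarith
  calc ‖u * v - x * y‖ = ‖(u - x) * v + x * (v - y)‖ := by ring_nf
    _ ≤ ‖(u - x) * v‖ + ‖x * (v - y)‖ := norm_add_le _ _
    _ = ‖u - x‖ * ‖v‖ + ‖x‖ * ‖v - y‖ := by rw [norm_mul, norm_mul]
    _ ≤ (δ / K) * (|B'| + 1) + |B| * (δ / K) := by
        have h3 := e1.trans (min_le_right _ _)
        have h4 := e2.trans (min_le_right _ _)
        gcongr
    _ ≤ (δ / K) * K := by
        have h5 : 0 < δ / K := by positivity
        nlinarith
    _ = δ := div_mul_cancel₀ _ hK0.ne'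

theorem UC_add {ε : ℕ → ℝ} {T : ℝ} {f g : ℕ → ℤ → ℂ} {φ ψ : ℝ → ℂ}
    (hf : UC ε T f φ) (hg : UC ε T g ψ) :
    UC ε T (fun j m => f j m + g j m) (fun t => φ t + ψ t) := by
  intro δ hδ
  filter_upwards [hf _ (half_pos hδ), hg _ (half_pos hδ)] with j h1 h2 m hm
  calc ‖f j m + g j m - (φ (m * ε j) + ψ (m * ε j))‖
      = ‖(f j m - φ (m * ε j)) + (g j m - ψ (m * ε j))‖ := by ring_nf
    _ ≤ ‖f j m - φ (m * ε j)‖ + ‖g j m - ψ (m * ε j)‖ := norm_add_le _ _
    _ ≤ δ / 2 + δ / 2 := add_le_add (h1 m hm) (h2 m hm)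
    _ = δ := by ring

theorem UC_sum {ι : Type*} (s : Finset ι) {ε : ℕ → ℝ} {T : ℝ} {f : ι → ℕ → ℤ → ℂ}
    {φ : ι → ℝ → ℂ} (h : ∀ i ∈ s, UC ε T (f i) (φ i)) :
    UC ε T (fun j m => ∑ i ∈ s, f i j m) (fun t => ∑ i ∈ s, φ i t) := by
  classical
  induction s using Finset.induction_on with
  | empty =>
    intro δ hδ
    filter_upwards with j m _
    simpa using hδ.le
  | insert a s ha ih =>
    simp only [Finset.sum_insert ha]
    exact UC_add (h a (Finset.mem_insert_self a s))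
      (ih fun i hi => h i (Finset.mem_insert_of_mem hi))

theorem UC_congr {ε : ℕ → ℝ} {T : ℝ} {f f' : ℕ → ℤ → ℂ} {φ : ℝ → ℂ} (h : UC ε T f φ)
    (he : ∀ᶠ j in atTop, ∀ m : ℤ, |(m : ℝ)| * ε j ≤ T → f j m = f' j m) : UC ε T f' φ := by
  intro δ hδ
  filter_upwards [h δ hδ, he] with j h1 h2 m hm
  rw [← h2 m hm]
  exact h1 m hm

theorem UC_mono {ε : ℕ → ℝ} {T T' : ℝ} {f : ℕ → ℤ → ℂ} {φ : ℝ → ℂ} (h : UC ε T' f φ)
    (hT : T ≤ T') : UC ε T f φ := by
  intro δ hδ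
  filter_upwards [h δ hδ] with j h1 m hm
  exact h1 m (hm.trans hT)

/-- convergence along a sequence of grid points -/
theorem UC_tendsto {ε : ℕ → ℝ} (hε : ∀ j, 0 < ε j) {T : ℝ} {f : ℕ → ℤ → ℂ} {φ : ℝ → ℂ}
    (h : UC ε T f φ) {t : ℝ} (ht : |t| < T) (hφ : ContinuousAt φ t) {m : ℕ → ℤ}
    (hm : Tendsto (fun j => (m j : ℝ) * ε j) atTop (𝓝 t)) :
    Tendsto (fun j => f j (m j)) atTop (𝓝 (φ t)) := by
  have h1 : Tendsto (fun j => φ ((m j : ℝ) * ε j)) atTop (𝓝 (φ t)) := hφ.tendsto.comp hm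
  have h2 : Tendsto (fun j => f j (m j) - φ ((m j : ℝ) * ε j)) atTop (𝓝 0) := by
    rw [Metric.tendsto_nhds]
    intro δ hδ
    have h3 : ∀ᶠ j in atTop, |(m j : ℝ) * ε j| < T := hm.abs.eventually (gt_mem_nhds ht)
    filter_upwards [h (δ / 2) (half_pos hδ), h3] with j h4 h5
    rw [dist_zero_right]
    have h6 := h4 (m j) (by
      rw [abs_mul, abs_of_pos (hε j)] at h5
      exact h5.le)
    linarith
  have h3 := h2.add h1
  simpa using h3

/-- a second primitive -/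
theorem exists_prim2 {s : ℂ → ℂ} {T : ℝ} (hs : DifferentiableOn ℂ s (ball 0 T)) :
    ∃ g g' : ℂ → ℂ, (∀ t ∈ ball (0 : ℂ) T, HasDerivAt g (g' t) t) ∧
      (∀ t ∈ ball (0 : ℂ) T, HasDerivAt g' (s t) t) ∧ g 0 = 0 ∧ g' 0 = 0 := by
  obtain ⟨g', h0, h1⟩ := hs.isExactOn_ball.with_val_at 0 0
  have h2 : DifferentiableOn ℂ g' (ball 0 T) := fun z hz =>
    (h1 z hz).differentiableAt.differentiableWithinAt
  obtain ⟨g, h3, h4⟩ := h2.isExactOn_ball.with_val_at 0 0
  exact ⟨g, g', h4, h1, h3, h0⟩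

theorem real_mem_ball {T t : ℝ} (ht : t ∈ Set.Ioo (-T) T) : ((t : ℝ) : ℂ) ∈ ball (0 : ℂ) T := by
  rw [mem_ball_zero_iff, Complex.norm_real, Real.norm_eq_abs, abs_lt]
  exact ht

theorem real_neg_mem_ball {T t : ℝ} (ht : t ∈ Set.Ioo (-T) T) :
    (-(t : ℝ) : ℂ) ∈ ball (0 : ℂ) T := by
  rw [mem_ball_zero_iff, norm_neg, ← mem_ball_zero_iff]
  exact real_mem_ball ht

/-- the two-sided scalar recursion -/
theorem scalar_two {g g' s : ℂ → ℂ} {T T₂ T' : ℝ} (hT : 0 < T) (hT2 : T < T₂) (hT' : T₂ < T')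
    (hg : ∀ t ∈ ball (0 : ℂ) T', HasDerivAt g (g' t) t)
    (hg' : ∀ t ∈ ball (0 : ℂ) T', HasDerivAt g' (s t) t)
    (hs : ContinuousOn s (ball (0 : ℂ) T')) (hg0 : g 0 = 0) (hg'0 : g' 0 = 0)
    {ε : ℕ → ℝ} (hε : ∀ j, 0 < ε j) (hε0 : Tendsto ε atTop (𝓝 0))
    {ν σ : ℕ → ℤ → ℂ} (hν : ∀ᶠ j in atTop, ν j 0 = 1 ∧ ν j 1 = 1 ∧ ν j (-1) = 1)
    (hne : ∀ᶠ j in atTop, ∀ m : ℤ, |(m : ℝ)| * ε j ≤ T₂ → ν j m ≠ 0)
    (hrec : ∀ᶠ j in atTop, ∀ m : ℤ, |(m : ℝ)| * ε j ≤ T₂ →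
      ν j (m - 1) * ν j (m + 1) = ν j m ^ 2 * (1 + (ε j : ℂ) ^ 2 * σ j m))
    (hσ : UC ε T₂ σ (fun t => s t)) :
    UC ε T ν (fun t => Complex.exp (g t)) := by
  intro δ hδ
  have hpos := scalar_rec' (δ := δ) (g := fun t : ℝ => g t) (g' := fun t : ℝ => g' t)
    (s := fun t : ℝ => s t) hT hT2 hT'
    (fun t ht => hasDerivAt_real (hg _ (real_mem_ball ht)))
    (fun t ht => hasDerivAt_real (hg' _ (real_mem_ball ht)))
    (hs.comp Complex.continuous_ofReal.continuousOn fun t ht => real_mem_ball ht)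
    (by simpa using hg0) (by simpa using hg'0) hε hε0
    (ν := fun j m => ν j (m : ℤ)) (σ := fun j m => σ j (m : ℤ))
    (by filter_upwards [hν] with j hj using ⟨by simpa using hj.1, by simpa using hj.2.1⟩)
    (by
      filter_upwards [hne] with j hj m hm
      exact hj m (by simpa using hm))
    (by
      filter_upwards [hrec] with j hj m hm
      have h1 := hj ((m : ℤ) + 1) (by
        have := hε j
        have h2 : |(((m : ℤ) + 1 : ℤ) : ℝ)| = (m : ℝ) + 1 := by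
          push_cast
          exact abs_of_nonneg (by positivity)
        rw [h2]
        nlinarith)
      have h3 : ((m : ℤ) + 1) - 1 = (m : ℤ) := by ring
      have h4 : ((m : ℤ) + 1) + 1 = ((m + 2 : ℕ) : ℤ) := by push_cast; ring
      have h5 : ((m + 1 : ℕ) : ℤ) = (m : ℤ) + 1 := by push_cast; ring
      rw [h3, h4] at h1
      rw [h5]
      exact h1)
    (by
      intro δ hδ
      filter_upwards [hσ δ hδ] with j hj m hm
      have := hj m (by simpa using hm)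
      simpa using this) hδ
  have hneg := scalar_rec' (δ := δ) (g := fun t : ℝ => g (-(t : ℂ))) (g' := fun t : ℝ => -g' (-(t : ℂ)))
    (s := fun t : ℝ => s (-(t : ℂ))) hT hT2 hT'
    (fun t ht => hasDerivAt_real_neg (hg _ (real_neg_mem_ball ht)))
    (fun t ht => by
      have := (hasDerivAt_real_neg (hg' _ (real_neg_mem_ball ht))).neg
      rw [neg_neg] at this
      exact this)
    (hs.comp Complex.continuous_ofReal.neg.continuousOn fun t ht => real_neg_mem_ball ht)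
    (by simpa using hg0) (by simpa using hg'0) hε hε0
    (ν := fun j m => ν j (-(m : ℤ))) (σ := fun j m => σ j (-(m : ℤ)))
    (by filter_upwards [hν] with j hj using ⟨by simpa using hj.1, by simpa using hj.2.2⟩)
    (by
      filter_upwards [hne] with j hj m hm
      exact hj (-(m : ℤ)) (by simpa using hm))
    (by
      filter_upwards [hrec] with j hj m hm
      have h1 := hj (-((m : ℤ) + 1)) (by
        have := hε j
        have h2 : |((-((m : ℤ) + 1) : ℤ) : ℝ)| = (m : ℝ) + 1 := by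
          push_cast
          rw [abs_neg]
          exact abs_of_nonneg (by positivity)
        rw [h2]
        nlinarith)
      have h3 : (-((m : ℤ) + 1)) + 1 = -(m : ℤ) := by ring
      have h4 : (-((m : ℤ) + 1)) - 1 = -((m + 2 : ℕ) : ℤ) := by push_cast; ring
      have h5 : -((m + 1 : ℕ) : ℤ) = -((m : ℤ) + 1) := by push_cast; ring
      rw [h3, h4] at h1
      rw [h5, mul_comm]
      exact h1)
    (by
      intro δ hδ
      filter_upwards [hσ δ hδ] with j hj m hm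
      have := hj (-(m : ℤ)) (by simpa using hm)
      simpa using this) hδ
  filter_upwards [hpos, hneg] with j h1 h2 m hm
  rcases Int.eq_nat_or_neg m with ⟨k, rfl | rfl⟩
  · have := h1 k (by simpa using hm)
    simpa using this
  · have := h2 k (by simpa using hm)
    simpa using this

/-- one-variable identity theorem from the real points -/
theorem real_ext {f : ℂ → ℂ} {ρ : ℝ} (hρ : 0 < ρ) (hf : DifferentiableOn ℂ f (ball 0 ρ))
    (h : ∀ t : ℝ, |t| < ρ → f t = 0) : ∀ t ∈ ball (0 : ℂ) ρ, f t = 0 := by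
  have han : AnalyticOnNhd ℂ f (ball 0 ρ) := hf.analyticOnNhd isOpen_ball
  have hpre : IsPreconnected (ball (0 : ℂ) ρ) := (convex_ball (0 : ℂ) ρ).isPreconnected
  have h0 : (0 : ℂ) ∈ ball (0 : ℂ) ρ := mem_ball_self hρ
  refine han.eqOn_zero_of_preconnected_of_frequently_eq_zero hpre h0 ?_
  have hseq : Tendsto (fun n : ℕ => (((ρ / (n + 2) : ℝ)) : ℂ)) atTop (𝓝[≠] (0 : ℂ)) := by
    rw [tendsto_nhdsWithin_iff]
    constructor
    · have h1 : Tendsto (fun n : ℕ => ρ / ((n : ℝ) + 2)) atTop (𝓝 0) :=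
        Tendsto.div_atTop tendsto_const_nhds
          (tendsto_atTop_add_const_right _ _ tendsto_natCast_atTop_atTop)
      exact (Complex.continuous_ofReal.tendsto 0).comp h1
    · filter_upwards with n
      have : (ρ / ((n : ℝ) + 2)) ≠ 0 := by positivity
      simp only [Set.mem_compl_iff, Set.mem_singleton_iff]
      exact_mod_cast this
  refine hseq.frequently (Frequently.of_forall fun n => ?_)
  refine h _ ?_
  rw [abs_of_pos (by positivity)]
  rw [div_lt_iff₀ (by positivity)]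
  have : (0 : ℝ) ≤ n := Nat.cast_nonneg n
  nlinarith

end Pool.Agent.Lib.MP_db21fa_an.H68
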