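import Pool.Agent.Lib.MP_db21fa_an.H68.FlowG

/-!
Module I, part H: the normalised sequence and its limit.
-/

set_option autoImplicit false
set_option linter.unusedSectionVars false

open Filter Topology Metric

namespace Pool.Agent.Lib.MP_db21fa_an.H68

open Pool.Agent.Lib.MP_db21fa_an.TF

variable {E : Type*} [NormedAddCommGroup E] [NormedSpace ℂ E] [FiniteDimensional ℂ E]

theorem half_norm_lt {R : ℝ} {x b : E} (hx : ‖x‖ < R) (hb : 2 * ‖b‖ < R) :
    ‖(1 / 2 : ℂ) • x + b‖ < R := by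
  have h1 : ‖(1 / 2 : ℂ) • x‖ = ‖x‖ / 2 := by
    rw [norm_smul]; norm_num; ring
  refine (norm_add_le _ _).trans_lt ?_
  rw [h1]
  linarith

theorem half_norm_lt' {R : ℝ} {x b : E} (hx : ‖x‖ < R) (hb : 2 * ‖b‖ < R) :
    ‖(1 / 2 : ℂ) • x - b‖ < R := by
  rw [sub_eq_add_neg]
  exact half_norm_lt hx (by rwa [norm_neg])

/-- the value at `1` at the origin -/
noncomputable def zz (p : E → ℂ) (l : E →L[ℂ] ℂ) (β : E) (m : ℤ) (x : E) : ℂ :=
  (Qz p l β m 0)⁻¹ * Qz p l β m x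

theorem BF_tendsto {N : ℕ} {o : ℕ → Fin N → E → ℂ} {o₀ : Fin N → E → ℂ} {b : Fin N → E}
    {f g : ℕ → E → ℂ} {f₀ g₀ : E → ℂ} {κ : ℕ → ℂ} (u : E)
    (h1 : ∀ i, Tendsto (fun j => f j ((1 / 2 : ℂ) • u - b i)) atTop
      (𝓝 (f₀ ((1 / 2 : ℂ) • u - b i))))
    (h2 : ∀ i, Tendsto (fun j => g j ((1 / 2 : ℂ) • u + b i)) atTop
      (𝓝 (g₀ ((1 / 2 : ℂ) • u + b i))))
    (h3 : ∀ i, Tendsto (fun j => κ j * o j i ((1 / 2 : ℂ) • u)) atTop
      (𝓝 (o₀ i ((1 / 2 : ℂ) • u)))) :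
    Tendsto (fun j => κ j * BF (o j) b (f j) (g j) u) atTop (𝓝 (BF o₀ b f₀ g₀ u)) := by
  have h4 : ∀ j, κ j * BF (o j) b (f j) (g j) u = ∑ i, f j ((1 / 2 : ℂ) • u - b i) *
      g j ((1 / 2 : ℂ) • u + b i) * (κ j * o j i ((1 / 2 : ℂ) • u)) := by
    intro j
    simp only [BF]
    rw [Finset.mul_sum]
    refine Finset.sum_congr rfl fun i _ => ?_
    ring
  simp only [h4]
  simp only [BF]
  exact tendsto_finsetSum _ fun i _ => ((h1 i).mul (h2 i)).mul (h3 i)

section ctx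

variable {p : E → ℂ} {N : ℕ} {β : ℕ → E} {c : ℕ → ℂ} {l : ℕ → E →L[ℂ] ℂ} {ε : ℕ → ℝ} {η : E → ℂ}
  {a b : Fin N → E} {R T : ℝ} {F : E × ℂ → ℂ}

theorem FD.uc (h : FD p β l ε η R T F) {T₂ : ℝ} (h0 : 0 < T₂) (hT : T₂ < T) {x : E}
    (hx : x ∈ ball (0 : E) R) :
    UC ε T₂ (fun j m => zz p (l j) (β j) m x) (fun t => F (x, (t : ℂ))) := by
  intro δ hδ
  filter_upwards [h.lim T₂ h0 hT δ hδ] with j hj m hm
  exact (hj m hm).2 x hx

theorem FD.cont (h : FD p β l ε η R T F) {x : E} (hx : x ∈ ball (0 : E) R) :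
    ContinuousOn (fun t : ℂ => F (x, t)) (ball 0 T) := by
  refine h.diff.continuousOn.comp (by fun_prop) fun t ht => ⟨hx, ht⟩

theorem FD.cont_real (h : FD p β l ε η R T F) {T₂ : ℝ} (hT : T₂ < T) {x : E}
    (hx : x ∈ ball (0 : E) R) :
    ContinuousOn (fun t : ℝ => F (x, (t : ℂ))) (Set.Icc (-T₂) T₂) := by
  refine (h.cont hx).comp Complex.continuous_ofReal.continuousOn fun t ht => ?_
  exact real_mem_ball ⟨by linarith [ht.1], by linarith [ht.2]⟩

/-- the first translate in negative direction -/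
theorem r_tendsto (hA : Approach p β c l ε η) (hT : 0 < T) (h : FD p β l ε η R T F) {x : E}
    (hx : x ∈ ball (0 : E) R) :
    Tendsto (fun j => zz p (l j) (β j) (-1) x) atTop (𝓝 (p x)) := by
  have h1 := UC_tendsto hA.pos (h.uc (half_pos hT) (half_lt_self hT) hx) (t := 0)
    (by simpa using half_pos hT)
    (by
      have := (h.cont_real (half_lt_self hT) hx)
      refine this.continuousAt (Icc_mem_nhds (by linarith) (by linarith)))
    (m := fun _ => -1) (by simpa using hA.zero.neg)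
  simp only [Complex.ofReal_zero, h.zero x hx] at h1
  exact h1

theorem Qz_neg_one_ne (hA : Approach p β c l ε η) (hT : 0 < T) (h : FD p β l ε η R T F) :
    ∀ᶠ j in atTop, Qz p (l j) (β j) (-1) 0 ≠ 0 := by
  have h2 : ∀ᶠ j in atTop, ε j < T / 2 := hA.zero.eventually (gt_mem_nhds (half_pos hT))
  filter_upwards [h.lim (T / 2) (half_pos hT) (half_lt_self hT) 1 one_pos, h2] with j hj h3
  refine (hj (-1) ?_).1
  simpa using h3.le

theorem Qz_one_ne (hA : Approach p β c l ε η) (j : ℕ) : Qz p (l j) (β j) 1 0 ≠ 0 := by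
  intro h
  have h1 := qq_zero hA j
  rw [qq_eq, h, mul_zero] at h1
  exact zero_ne_one h1

theorem zz_one (hA : Approach p β c l ε η) (j : ℕ) (x : E) :
    zz p (l j) (β j) 1 x = qq p β c l j x := by
  have h1 := qq_zero hA j
  rw [qq_eq] at h1
  rw [qq_eq, zz, eq_inv_of_mul_eq_one_left h1]

theorem D'_eq (hp0 : p 0 = 1) (hr : RankLE (PK p p) N) (hA : Approach p β c l ε η) {j : ℕ}
    (hj : (mm (PK p (qq p β c l j)) a b).det ≠ 0) (h1 : Qz p (l j) (β j) (-1) 0 ≠ 0) (u : E) :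
    p u - zz p (l j) (β j) (-1) u =
      BF (oF p (qq p β c l j) (qq p β c l j) a b) b (zz p (l j) (β j) (-1)) p u := by
  have h := two_term' hr hA hj (-1) u
  have hQ0 : Qz p (l j) (β j) 0 = p := funext fun x => Qz_zero (l j) (β j) x
  rw [show (-1 : ℤ) + 1 = 0 by ring, hQ0, hp0] at h
  have h2 : BF (oF p (qq p β c l j) (qq p β c l j) a b) b (zz p (l j) (β j) (-1)) p u =
      (Qz p (l j) (β j) (-1) 0)⁻¹ *
        BF (oF p (qq p β c l j) (qq p β c l j) a b) b (Qz p (l j) (β j) (-1)) p u :=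
    BF_smul_left _ u
  rw [h2, ← h]
  simp only [zz]
  field_simp

/-- the second derivative at `0` -/
noncomputable def WW (p η : E → ℂ) (a b : Fin N → E) (u : E) : ℂ :=
  BF (oF p p η a b) b p η u + BF (oF p p η a b) b η p u

theorem Dε_tendsto (hA : Approach p β c l ε η) (u : E) :
    Tendsto (fun j => ((ε j : ℂ))⁻¹ * (qq p β c l j u - p u)) atTop (𝓝 (η u)) := by
  have h1 := LU_tendsto hA.sec u
  refine h1.congr fun j => ?_
  simp only [qq]
  rw [div_eq_inv_mul]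

theorem D'ε_tendsto (hp : Differentiable ℂ p) (hp0 : p 0 = 1) (hr : RankLE (PK p p) N)
    (hA : Approach p β c l ε η) (hdet : (mm (PK p p) a b).det ≠ 0) (hb : ∀ i, 2 * ‖b i‖ < R)
    (hT : 0 < T) (h : FD p β l ε η R T F) {u : E} (hu : ‖u‖ < R) :
    Tendsto (fun j => ((ε j : ℂ))⁻¹ * (p u - zz p (l j) (β j) (-1) u)) atTop (𝓝 (η u)) := by
  have h1 : Tendsto (fun j => ((ε j : ℂ))⁻¹ *
      BF (oF p (qq p β c l j) (qq p β c l j) a b) b (zz p (l j) (β j) (-1)) p u) atTop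
      (𝓝 (BF (oF p p η a b) b p p u)) := by
    refine BF_tendsto (f := fun j => zz p (l j) (β j) (-1)) (g := fun _ => p) u ?_ ?_ ?_
    · intro i
      exact r_tendsto hA hT h (mem_ball_zero_iff.mpr (half_norm_lt' hu (hb i)))
    · intro i
      exact tendsto_const_nhds
    · intro i
      exact LU_tendsto (oj_LU hp hA hdet i) _
  rw [← eta_eq hp hp0 hr hA hdet u] at h1
  refine h1.congr' ?_
  filter_upwards [det_ne hA hdet, Qz_neg_one_ne hA hT h] with j h2 h3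
  rw [D'_eq hp0 hr hA h2 h3 u]

theorem BF_sub_add {o : Fin N → E → ℂ} {b : Fin N → E} (f g r : E → ℂ) (u : E) :
    BF o b f g u - BF o b r f u =
      BF o b f (fun x => g x - f x) u + BF o b (fun x => f x - r x) f u := by
  simp only [BF]
  rw [← Finset.sum_sub_distrib, ← Finset.sum_add_distrib]
  refine Finset.sum_congr rfl fun i _ => ?_
  ring

theorem BF_mul_left {o : Fin N → E → ℂ} {b : Fin N → E} (κ : ℂ) (f g : E → ℂ) (u : E) :
    κ * (κ * BF o b f g u) = κ * BF o b (fun x => κ * f x) g u := by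
  rw [← BF_smul_left]

theorem BF_mul_right {o : Fin N → E → ℂ} {b : Fin N → E} (κ : ℂ) (f g : E → ℂ) (u : E) :
    κ * (κ * BF o b f g u) = κ * BF o b f (fun x => κ * g x) u := by
  rw [← BF_smul_right]

theorem DD_tendsto (hp : Differentiable ℂ p) (hp0 : p 0 = 1) (hr : RankLE (PK p p) N)
    (hA : Approach p β c l ε η) (hdet : (mm (PK p p) a b).det ≠ 0) (hb : ∀ i, 2 * ‖b i‖ < R)
    (hT : 0 < T) (h : FD p β l ε η R T F) {u : E} (hu : ‖u‖ < R) :
    Tendsto (fun j => ((ε j : ℂ))⁻¹ * (((ε j : ℂ))⁻¹ *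
      ((qq p β c l j u - p u) - (p u - zz p (l j) (β j) (-1) u)))) atTop
      (𝓝 (WW p η a b u)) := by
  have h1 : Tendsto (fun j => ((ε j : ℂ))⁻¹ *
      BF (oF p (qq p β c l j) (qq p β c l j) a b) b p
        (fun x => ((ε j : ℂ))⁻¹ * (qq p β c l j x - p x)) u) atTop
      (𝓝 (BF (oF p p η a b) b p η u)) := by
    refine BF_tendsto (f := fun _ => p)
      (g := fun j x => ((ε j : ℂ))⁻¹ * (qq p β c l j x - p x)) u ?_ ?_ ?_
    · intro i
      exact tendsto_const_nhds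
    · intro i
      exact Dε_tendsto hA _
    · intro i
      exact LU_tendsto (oj_LU hp hA hdet i) _
  have h2 : Tendsto (fun j => ((ε j : ℂ))⁻¹ *
      BF (oF p (qq p β c l j) (qq p β c l j) a b) b
        (fun x => ((ε j : ℂ))⁻¹ * (p x - zz p (l j) (β j) (-1) x)) p u) atTop
      (𝓝 (BF (oF p p η a b) b η p u)) := by
    refine BF_tendsto (f := fun j x => ((ε j : ℂ))⁻¹ * (p x - zz p (l j) (β j) (-1) x))
      (g := fun _ => p) u ?_ ?_ ?_
    · intro i
      exact D'ε_tendsto hp hp0 hr hA hdet hb hT h (half_norm_lt' hu (hb i))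
    · intro i
      exact tendsto_const_nhds
    · intro i
      exact LU_tendsto (oj_LU hp hA hdet i) _
  refine (h1.add h2).congr' ?_
  filter_upwards [det_ne hA hdet, Qz_neg_one_ne hA hT h] with j h3 h4
  rw [D'_eq hp0 hr hA h3 h4 u, D_eq hp0 hr hA h3 u, BF_sub_add, mul_add, mul_add,
    BF_mul_right _ p (fun x => qq p β c l j x - p x),
    BF_mul_left _ (fun x => p x - zz p (l j) (β j) (-1) x) p]

/-- the discrete second difference -/
noncomputable def tauJ (p : E → ℂ) (β : ℕ → E) (l : ℕ → E →L[ℂ] ℂ) (a b : Fin N → E) (j : ℕ)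
    (i : Fin N) : ℂ :=
  ∑ k, (mm (PK p p) a b)⁻¹ i k *
    (zz p (l j) (β j) (-1) (a k) * zz p (l j) (β j) 1 (a k) - p (a k) * p (a k))

/-- its limit -/
noncomputable def sigL (p η : E → ℂ) (a b : Fin N → E) (i : Fin N) : ℂ :=
  ∑ k, (mm (PK p p) a b)⁻¹ i k * (p (a k) * WW p η a b (a k) - η (a k) * η (a k))

theorem tau_tendsto (hp : Differentiable ℂ p) (hp0 : p 0 = 1) (hr : RankLE (PK p p) N)
    (hA : Approach p β c l ε η) (hdet : (mm (PK p p) a b).det ≠ 0) (ha : ∀ i, ‖a i‖ < R)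
    (hb : ∀ i, 2 * ‖b i‖ < R) (hT : 0 < T) (h : FD p β l ε η R T F) (i : Fin N) :
    Tendsto (fun j => ((ε j : ℂ))⁻¹ * (((ε j : ℂ))⁻¹ * tauJ p β l a b j i)) atTop
      (𝓝 (sigL p η a b i)) := by
  have h1 : ∀ j, ((ε j : ℂ))⁻¹ * (((ε j : ℂ))⁻¹ * tauJ p β l a b j i) =
      ∑ k, (mm (PK p p) a b)⁻¹ i k * (p (a k) * (((ε j : ℂ))⁻¹ * (((ε j : ℂ))⁻¹ *
        ((qq p β c l j (a k) - p (a k)) - (p (a k) - zz p (l j) (β j) (-1) (a k))))) -
        (((ε j : ℂ))⁻¹ * (p (a k) - zz p (l j) (β j) (-1) (a k))) *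
          (((ε j : ℂ))⁻¹ * (qq p β c l j (a k) - p (a k)))) := by
    intro j
    simp only [tauJ]
    rw [Finset.mul_sum, Finset.mul_sum]
    refine Finset.sum_congr rfl fun k _ => ?_
    rw [zz_one hA]
    ring
  simp only [h1]
  simp only [sigL]
  refine tendsto_finsetSum _ fun k _ => ?_
  refine tendsto_const_nhds.mul ((tendsto_const_nhds.mul
    (DD_tendsto hp hp0 hr hA hdet hb hT h (ha k))).sub
    ((D'ε_tendsto hp hp0 hr hA hdet hb hT h (ha k)).mul (Dε_tendsto hA _)))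

end ctx

end Pool.Agent.Lib.MP_db21fa_an.H68
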