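import Pool.Agent.Lib.MP_db21fa_an.H68.FlowH

/-!
Module I, part I: the normalised sequence converges to a holomorphic function.
-/

set_option autoImplicit false
set_option linter.unusedSectionVars false

open Filter Topology Metric

namespace Pool.Agent.Lib.MP_db21fa_an.H68

open Pool.Agent.Lib.MP_db21fa_an.TF

variable {E : Type*} [NormedAddCommGroup E] [NormedSpace ℂ E] [FiniteDimensional ℂ E]

/-- the coefficient of `m ^ 2` -/
noncomputable def sJ (p : E → ℂ) (l : E →L[ℂ] ℂ) (β : E) : ℂ :=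
  -(Complex.log (Qz p l β 1 0) + Complex.log (Qz p l β (-1) 0)) / 2

/-- the coefficient of `m` -/
noncomputable def tJ (p : E → ℂ) (l : E →L[ℂ] ℂ) (β : E) : ℂ :=
  -(Complex.log (Qz p l β 1 0) - Complex.log (Qz p l β (-1) 0)) / 2

/-- the normalised sequence -/
noncomputable def PJ (p : E → ℂ) (l : E →L[ℂ] ℂ) (β : E) (m : ℤ) (x : E) : ℂ :=
  Complex.exp (sJ p l β * m ^ 2 + tJ p l β * m) * Qz p l β m x

theorem PJ_zero (p : E → ℂ) (l : E →L[ℂ] ℂ) (β : E) (x : E) : PJ p l β 0 x = p x := by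
  simp [PJ, Qz]

theorem PJ_one {p : E → ℂ} {l : E →L[ℂ] ℂ} {β : E} (h : Qz p l β 1 0 ≠ 0) (x : E) :
    PJ p l β 1 x = zz p l β 1 x := by
  have h1 : sJ p l β * ((1 : ℤ) : ℂ) ^ 2 + tJ p l β * ((1 : ℤ) : ℂ) =
      -Complex.log (Qz p l β 1 0) := by
    simp only [sJ, tJ]
    push_cast
    ring
  rw [PJ, h1, Complex.exp_neg, Complex.exp_log h, zz]

theorem PJ_neg_one {p : E → ℂ} {l : E →L[ℂ] ℂ} {β : E} (h : Qz p l β (-1) 0 ≠ 0) (x : E) :
    PJ p l β (-1) x = zz p l β (-1) x := by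
  have h1 : sJ p l β * ((-1 : ℤ) : ℂ) ^ 2 + tJ p l β * ((-1 : ℤ) : ℂ) =
      -Complex.log (Qz p l β (-1) 0) := by
    simp only [sJ, tJ]
    push_cast
    ring
  rw [PJ, h1, Complex.exp_neg, Complex.exp_log h, zz]

theorem PJ_eq {p : E → ℂ} {l : E →L[ℂ] ℂ} {β : E} {m : ℤ} (h : Qz p l β m 0 ≠ 0) (x : E) :
    PJ p l β m x = PJ p l β m 0 * zz p l β m x := by
  simp only [PJ, zz]
  field_simp

theorem zz_zero_right {p : E → ℂ} {l : E →L[ℂ] ℂ} {β : E} {m : ℤ} (h : Qz p l β m 0 ≠ 0) :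
    zz p l β m 0 = 1 := by
  simp only [zz]
  exact inv_mul_cancel₀ h

section ctx

variable {p : E → ℂ} {N : ℕ} {β : ℕ → E} {c : ℕ → ℂ} {l : ℕ → E →L[ℂ] ℂ} {ε : ℕ → ℝ} {η : E → ℂ}
  {a b : Fin N → E} {R T : ℝ} {F : E × ℂ → ℂ}

/-- the recursion for the values at the origin -/
theorem nu_rec (hr : RankLE (PK p p) N) (hdet : (mm (PK p p) a b).det ≠ 0) (j : ℕ)
    (h1 : Qz p (l j) (β j) 1 0 ≠ 0) (h2 : Qz p (l j) (β j) (-1) 0 ≠ 0) (m : ℤ)
    (hm : Qz p (l j) (β j) m 0 ≠ 0) {e : ℂ} (he : e ≠ 0) :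
    PJ p (l j) (β j) (m - 1) 0 * PJ p (l j) (β j) (m + 1) 0 = PJ p (l j) (β j) m 0 ^ 2 *
      (1 + e ^ 2 * ∑ i, zz p (l j) (β j) m (-b i) * zz p (l j) (β j) m (b i) *
        (e⁻¹ * (e⁻¹ * tauJ p β l a b j i))) := by
  have e1 := three_term hr hdet (l j) (β j) (sJ p (l j) (β j)) (tJ p (l j) (β j))
    (PJ p (l j) (β j)) (fun _ _ => rfl) m 1 0 0
  have e0 := three_term hr hdet (l j) (β j) (sJ p (l j) (β j)) (tJ p (l j) (β j))
    (PJ p (l j) (β j)) (fun _ _ => rfl) m 0 0 0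
  simp only [sub_zero, add_zero, zero_sub, zero_add, neg_zero] at e1 e0
  have e2 : PJ p (l j) (β j) (m - 1) 0 * PJ p (l j) (β j) (m + 1) 0 -
      PJ p (l j) (β j) m 0 * PJ p (l j) (β j) m 0 =
      ∑ i, PJ p (l j) (β j) m (-b i) * PJ p (l j) (β j) m (b i) * tauJ p β l a b j i := by
    rw [e1, e0, ← Finset.sum_sub_distrib]
    refine Finset.sum_congr rfl fun i _ => ?_
    rw [← Finset.sum_sub_distrib, tauJ, Finset.mul_sum]
    refine Finset.sum_congr rfl fun k _ => ?_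
    rw [PJ_one h1, PJ_neg_one h2, PJ_zero]
    ring
  have e3 : ∀ i, PJ p (l j) (β j) m (-b i) * PJ p (l j) (β j) m (b i) * tauJ p β l a b j i =
      PJ p (l j) (β j) m 0 ^ 2 * (e ^ 2 * (zz p (l j) (β j) m (-b i) * zz p (l j) (β j) m (b i) *
        (e⁻¹ * (e⁻¹ * tauJ p β l a b j i)))) := by
    intro i
    rw [PJ_eq hm (-b i), PJ_eq hm (b i)]
    field_simp
  have e4 := sub_eq_iff_eq_add.mp e2
  rw [e4]
  simp only [e3]
  rw [← Finset.mul_sum, ← Finset.mul_sum]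
  ring

/-- the limit of the normalised sequence -/
theorem exists_G (hp : Differentiable ℂ p) (hp0 : p 0 = 1) (hr : RankLE (PK p p) N)
    (hA : Approach p β c l ε η) (hdet : (mm (PK p p) a b).det ≠ 0) (ha : ∀ i, ‖a i‖ < R)
    (hb : ∀ i, 2 * ‖b i‖ < R) (hR : 0 < R) (hT : 0 < T) (h : FD p β l ε η R T F) :
    ∃ G : E × ℂ → ℂ, DifferentiableOn ℂ G (ball 0 R ×ˢ ball 0 T) ∧
      (∀ x ∈ ball (0 : E) R, G (x, 0) = p x) ∧
      (∀ x ∈ ball (0 : E) R, HasDerivAt (fun t : ℂ => G (x, t)) (η x) 0) ∧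
      ∀ x ∈ ball (0 : E) R, ∀ T₁ : ℝ, 0 < T₁ → T₁ < T →
        UC ε T₁ (fun j m => PJ p (l j) (β j) m x) (fun t => G (x, (t : ℂ))) := by
  have hbm : ∀ i, b i ∈ ball (0 : E) R := fun i => by
    rw [mem_ball_zero_iff]
    have := hb i
    have := norm_nonneg (b i)
    linarith
  have hbm' : ∀ i, -b i ∈ ball (0 : E) R := fun i => by
    have := hbm i
    rw [mem_ball_zero_iff] at *
    rwa [norm_neg]
  set s : ℂ → ℂ := fun t => ∑ i, F (-b i, t) * F (b i, t) * sigL p η a b i with hs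
  have hsec : ∀ x ∈ ball (0 : E) R, DifferentiableOn ℂ (fun t : ℂ => F (x, t)) (ball 0 T) := by
    intro x hx
    exact h.diff.comp (by fun_prop) fun t ht => ⟨hx, ht⟩
  have hsd : DifferentiableOn ℂ s (ball 0 T) := by
    refine DifferentiableOn.fun_sum fun i _ => ?_
    exact ((hsec _ (hbm' i)).mul (hsec _ (hbm i))).mul_const _
  obtain ⟨g, g', hg, hg', hg0, hg'0⟩ := exists_prim2 hsd
  have hgd : DifferentiableOn ℂ g (ball 0 T) := fun t ht =>
    (hg t ht).differentiableAt.differentiableWithinAt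
  have h0T : (0 : ℂ) ∈ ball (0 : ℂ) T := mem_ball_self hT
  refine ⟨fun Z => Complex.exp (g Z.2) * F Z, ?_, ?_, ?_, ?_⟩
  · refine DifferentiableOn.mul ?_ h.diff
    refine DifferentiableOn.cexp ?_
    exact hgd.comp (t := ball 0 T) differentiableOn_snd fun Z hZ => hZ.2
  · intro x hx
    simp only [hg0, Complex.exp_zero, one_mul]
    exact h.zero x hx
  · intro x hx
    have h1 := (hg 0 h0T).cexp
    have h2 := h1.mul (h.der x hx)
    simp only [hg'0, mul_zero, zero_mul, hg0, Complex.exp_zero, one_mul, zero_add] at h2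
    exact h2
  · intro x hx T₁ h1 h2
    obtain ⟨T₂, h3, h4⟩ := exists_between h2
    have h5 : 0 < T₂ := h1.trans h3
    have hne : ∀ᶠ j in atTop, ∀ m : ℤ, |(m : ℝ)| * ε j ≤ T₂ → Qz p (l j) (β j) m 0 ≠ 0 := by
      filter_upwards [h.lim T₂ h5 h4 1 one_pos] with j hj m hm
      exact (hj m hm).1
    have hq1 := Qz_neg_one_ne hA hT h
    have hcr := fun x hx => h.cont_real (T₂ := T₂) h4 (x := x) hx
    have hν := scalar_two (g := g) (g' := g') (s := s) h1 h3 h4 hg hg' hsd.continuousOn hg0 hg'0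
      hA.pos hA.zero
      (ν := fun j m => PJ p (l j) (β j) m 0)
      (σ := fun j m => ∑ i, zz p (l j) (β j) m (-b i) * zz p (l j) (β j) m (b i) *
        (((ε j : ℂ))⁻¹ * (((ε j : ℂ))⁻¹ * tauJ p β l a b j i)))
      (by
        filter_upwards [hq1] with j hj
        refine ⟨?_, ?_, ?_⟩
        · rw [PJ_zero, hp0]
        · rw [PJ_one (Qz_one_ne hA j), zz_zero_right (Qz_one_ne hA j)]
        · rw [PJ_neg_one hj, zz_zero_right hj])
      (by
        filter_upwards [hne] with j hj m hm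
        simp only [PJ]
        exact mul_ne_zero (Complex.exp_ne_zero _) (hj m hm))
      (by
        filter_upwards [hne, hq1] with j hj hj' m hm
        exact nu_rec hr hdet j (Qz_one_ne hA j) hj' m (hj m hm)
          (Complex.ofReal_ne_zero.mpr (hA.pos j).ne'))
      (by
        simp only [hs]
        refine UC_sum _ fun i _ => ?_
        refine UC_mul hA.pos (UC_mul hA.pos (h.uc h5 h4 (hbm' i)) (h.uc h5 h4 (hbm i))
          (hcr _ (hbm' i)) (hcr _ (hbm i))) (UC_const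
            (tau_tendsto hp hp0 hr hA hdet ha hb hT h i)) ?_ continuousOn_const
        exact (hcr _ (hbm' i)).mul (hcr _ (hbm i)))
    have hmul := UC_mul hA.pos hν (UC_mono (h.uc h5 h4 hx) h3.le) ?_ (h.cont_real h2 hx)
    · refine UC_congr hmul ?_
      filter_upwards [hne] with j hj m hm
      exact (PJ_eq (hj m (hm.trans h3.le)) x).symm
    · refine ContinuousOn.cexp ?_
      refine hgd.continuousOn.comp Complex.continuous_ofReal.continuousOn fun t ht => ?_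
      exact real_mem_ball ⟨by linarith [ht.1], by linarith [ht.2]⟩

end ctx

end Pool.Agent.Lib.MP_db21fa_an.H68
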