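import Pool.Agent.Lib.MP_db21fa_an.H68.FlowI
import Pool.Agent.Lib.MP_db21fa_an.TF.Doubling

/-!
Module I, part K: the kernel identity for the limit, and the two main theorems.
-/

set_option autoImplicit false
set_option linter.unusedSectionVars false

open Filter Topology Metric

namespace Pool.Agent.Lib.MP_db21fa_an.H68

open Pool.Agent.Lib.MP_db21fa_an.TF

variable {E : Type*} [NormedAddCommGroup E] [NormedSpace ℂ E] [FiniteDimensional ℂ E]

theorem floor_tendsto {ε : ℕ → ℝ} (hε : ∀ j, 0 < ε j) (h0 : Tendsto ε atTop (𝓝 0)) (t : ℝ) :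
    Tendsto (fun j => ((⌊t / ε j⌋ : ℤ) : ℝ) * ε j) atTop (𝓝 t) := by
  have h1 : Tendsto (fun j => t - ε j) atTop (𝓝 t) := by
    simpa using (tendsto_const_nhds (x := t)).sub h0
  refine tendsto_of_tendsto_of_tendsto_of_le_of_le h1 tendsto_const_nhds ?_ ?_
  · intro j
    have h2 := Int.sub_one_lt_floor (t / ε j)
    have h3 : (t / ε j - 1) * ε j ≤ (⌊t / ε j⌋ : ℝ) * ε j :=
      mul_le_mul_of_nonneg_right h2.le (hε j).le
    have h4 : (t / ε j - 1) * ε j = t - ε j := by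
      rw [sub_mul, div_mul_cancel₀ _ (hε j).ne', one_mul]
    simpa [h4] using h3
  · intro j
    have h2 := Int.floor_le (t / ε j)
    have h3 : (⌊t / ε j⌋ : ℝ) * ε j ≤ (t / ε j) * ε j :=
      mul_le_mul_of_nonneg_right h2 (hε j).le
    rwa [div_mul_cancel₀ _ (hε j).ne'] at h3

section ctx

variable {p : E → ℂ} {N : ℕ} {β : ℕ → E} {c : ℕ → ℂ} {l : ℕ → E →L[ℂ] ℂ} {ε : ℕ → ℝ} {η : E → ℂ}
  {a b : Fin N → E} {R T : ℝ} {G : E × ℂ → ℂ}

theorem sec_cont (hG : DifferentiableOn ℂ G (ball 0 R ×ˢ ball 0 T)) {x : E}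
    (hx : x ∈ ball (0 : E) R) {u : ℝ} (hu : |u| < T) :
    ContinuousAt (fun t : ℝ => G (x, (t : ℂ))) u := by
  have hmem : ((x, (u : ℂ)) : E × ℂ) ∈ (ball (0 : E) R ×ˢ ball (0 : ℂ) T) := by
    refine ⟨hx, ?_⟩
    rw [mem_ball_zero_iff]
    simpa using hu
  have h1 : ContinuousAt G (x, (u : ℂ)) :=
    (hG.differentiableAt ((isOpen_ball.prod isOpen_ball).mem_nhds hmem)).continuousAt
  exact ContinuousAt.comp (f := fun t : ℝ => ((x, (t : ℂ)) : E × ℂ)) h1 (by fun_prop)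

theorem PJ_tendsto (hA : Approach p β c l ε η)
    (hG : DifferentiableOn ℂ G (ball 0 R ×ˢ ball 0 T))
    (huc : ∀ x ∈ ball (0 : E) R, ∀ T₁ : ℝ, 0 < T₁ → T₁ < T →
      UC ε T₁ (fun j m => PJ p (l j) (β j) m x) (fun t => G (x, (t : ℂ))))
    {x : E} (hx : ‖x‖ < R) {u : ℝ} (hu : |u| < T) {m : ℕ → ℤ}
    (hm : Tendsto (fun j => ((m j : ℤ) : ℝ) * ε j) atTop (𝓝 u)) :
    Tendsto (fun j => PJ p (l j) (β j) (m j) x) atTop (𝓝 (G (x, (u : ℂ)))) := by
  have hx' : x ∈ ball (0 : E) R := mem_ball_zero_iff.mpr hx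
  obtain ⟨T₁, h1, h2⟩ := exists_between hu
  exact UC_tendsto hA.pos (huc x hx' T₁ ((abs_nonneg u).trans_lt h1) h2) h1
    (sec_cont hG hx' hu) hm

/-- the kernel identity at real times -/
theorem kernel_real (hr : RankLE (PK p p) N) (hdet : (mm (PK p p) a b).det ≠ 0)
    (ha : ∀ i, 2 * ‖a i‖ < R) (hb : ∀ i, 2 * ‖b i‖ < R)
    (hA : Approach p β c l ε η) (hG : DifferentiableOn ℂ G (ball 0 R ×ˢ ball 0 T))
    (huc : ∀ x ∈ ball (0 : E) R, ∀ T₁ : ℝ, 0 < T₁ → T₁ < T →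
      UC ε T₁ (fun j m => PJ p (l j) (β j) m x) (fun t => G (x, (t : ℂ))))
    {x y : E} (hx : ‖x‖ < R / 2) (hy : ‖y‖ < R / 2) {t s : ℝ} (ht : |t| < T / 2)
    (hs : |s| < T / 2) :
    G (x - y, (t : ℂ) - (s : ℂ)) * G (x + y, (t : ℂ) + (s : ℂ)) =
      ∑ i, ∑ k, G (x - b i, (t : ℂ)) * G (x + b i, (t : ℂ)) * (mm (PK p p) a b)⁻¹ i k *
        (G (a k - y, -(s : ℂ)) * G (a k + y, (s : ℂ))) := by
  have hm := floor_tendsto hA.pos hA.zero t
  have hr' := floor_tendsto hA.pos hA.zero s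
  have t1 : |t| < T := by have := abs_nonneg t; linarith
  have s1 : |s| < T := by have := abs_nonneg s; linarith
  have s2 : |(-s)| < T := by rwa [abs_neg]
  have ts : |t - s| < T := (abs_sub t s).trans_lt (by linarith)
  have ts' : |t + s| < T := (abs_add_le t s).trans_lt (by linarith)
  have n1 : ‖x - y‖ < R := (norm_sub_le x y).trans_lt (by linarith)
  have n2 : ‖x + y‖ < R := (norm_add_le x y).trans_lt (by linarith)
  have n3 : ∀ i, ‖x - b i‖ < R := fun i => (norm_sub_le _ _).trans_lt (by linarith [hb i])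
  have n4 : ∀ i, ‖x + b i‖ < R := fun i => (norm_add_le _ _).trans_lt (by linarith [hb i])
  have n5 : ∀ i, ‖a i - y‖ < R := fun i => (norm_sub_le _ _).trans_lt (by linarith [ha i])
  have n6 : ∀ i, ‖a i + y‖ < R := fun i => (norm_add_le _ _).trans_lt (by linarith [ha i])
  set m : ℕ → ℤ := fun j => ⌊t / ε j⌋ with hmdef
  set r : ℕ → ℤ := fun j => ⌊s / ε j⌋ with hrdef
  have hsub : Tendsto (fun j => (((m j - r j : ℤ)) : ℝ) * ε j) atTop (𝓝 (t - s)) := by
    refine (hm.sub hr').congr fun j => ?_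
    simp only [hmdef, hrdef]
    push_cast
    ring
  have hadd : Tendsto (fun j => (((m j + r j : ℤ)) : ℝ) * ε j) atTop (𝓝 (t + s)) := by
    refine (hm.add hr').congr fun j => ?_
    simp only [hmdef, hrdef]
    push_cast
    ring
  have hneg : Tendsto (fun j => (((-r j : ℤ)) : ℝ) * ε j) atTop (𝓝 (-s)) := by
    refine hr'.neg.congr fun j => ?_
    simp only [hrdef]
    push_cast
    ring
  have hL : Tendsto (fun j => PJ p (l j) (β j) (m j - r j) (x - y) *
      PJ p (l j) (β j) (m j + r j) (x + y)) atTop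
      (𝓝 (G (x - y, ((t - s : ℝ) : ℂ)) * G (x + y, ((t + s : ℝ) : ℂ)))) :=
    (PJ_tendsto hA hG huc n1 ts hsub).mul (PJ_tendsto hA hG huc n2 ts' hadd)
  have hRr : Tendsto (fun j => ∑ i, ∑ k, PJ p (l j) (β j) (m j) (x - b i) *
      PJ p (l j) (β j) (m j) (x + b i) * (mm (PK p p) a b)⁻¹ i k *
        (PJ p (l j) (β j) (-r j) (a k - y) * PJ p (l j) (β j) (r j) (a k + y))) atTop
      (𝓝 (∑ i, ∑ k, G (x - b i, (t : ℂ)) * G (x + b i, (t : ℂ)) * (mm (PK p p) a b)⁻¹ i k *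
        (G (a k - y, ((-s : ℝ) : ℂ)) * G (a k + y, (s : ℂ))))) := by
    refine tendsto_finsetSum _ fun i _ => tendsto_finsetSum _ fun k _ => ?_
    exact (((PJ_tendsto hA hG huc (n3 i) t1 hm).mul (PJ_tendsto hA hG huc (n4 i) t1 hm)).mul
      tendsto_const_nhds).mul ((PJ_tendsto hA hG huc (n5 k) s2 hneg).mul
        (PJ_tendsto hA hG huc (n6 k) s1 hr'))
  have heq : ∀ j, PJ p (l j) (β j) (m j - r j) (x - y) * PJ p (l j) (β j) (m j + r j) (x + y) =
      ∑ i, ∑ k, PJ p (l j) (β j) (m j) (x - b i) *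
      PJ p (l j) (β j) (m j) (x + b i) * (mm (PK p p) a b)⁻¹ i k *
        (PJ p (l j) (β j) (-r j) (a k - y) * PJ p (l j) (β j) (r j) (a k + y)) := fun j =>
    three_term hr hdet (l j) (β j) (sJ p (l j) (β j)) (tJ p (l j) (β j))
      (PJ p (l j) (β j)) (fun _ _ => rfl) (m j) (r j) x y
  have := tendsto_nhds_unique hL (hRr.congr fun j => (heq j).symm)
  simpa using this

/-- the kernel identity at complex times -/
theorem kernel_complex (hr : RankLE (PK p p) N) (hdet : (mm (PK p p) a b).det ≠ 0)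
    (ha : ∀ i, 2 * ‖a i‖ < R) (hb : ∀ i, 2 * ‖b i‖ < R) (hT : 0 < T)
    (hA : Approach p β c l ε η) (hG : DifferentiableOn ℂ G (ball 0 R ×ˢ ball 0 T))
    (huc : ∀ x ∈ ball (0 : E) R, ∀ T₁ : ℝ, 0 < T₁ → T₁ < T →
      UC ε T₁ (fun j m => PJ p (l j) (β j) m x) (fun t => G (x, (t : ℂ))))
    {x y : E} (hx : ‖x‖ < R / 2) (hy : ‖y‖ < R / 2) {t s : ℂ} (ht : ‖t‖ < T / 2)
    (hs : ‖s‖ < T / 2) :
    G (x - y, t - s) * G (x + y, t + s) =
      ∑ i, ∑ k, G (x - b i, t) * G (x + b i, t) * (mm (PK p p) a b)⁻¹ i k *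
        (G (a k - y, -s) * G (a k + y, s)) := by
  have n1 : ‖x - y‖ < R := (norm_sub_le x y).trans_lt (by linarith)
  have n2 : ‖x + y‖ < R := (norm_add_le x y).trans_lt (by linarith)
  have n3 : ∀ i, ‖x - b i‖ < R := fun i => (norm_sub_le _ _).trans_lt (by linarith [hb i])
  have n4 : ∀ i, ‖x + b i‖ < R := fun i => (norm_add_le _ _).trans_lt (by linarith [hb i])
  have n5 : ∀ i, ‖a i - y‖ < R := fun i => (norm_sub_le _ _).trans_lt (by linarith [ha i])
  have n6 : ∀ i, ‖a i + y‖ < R := fun i => (norm_add_le _ _).trans_lt (by linarith [ha i])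
  have key : ∀ (z : E) (A : ℂ → ℂ) (_ : Differentiable ℂ A), ‖z‖ < R →
      (∀ w ∈ ball (0 : ℂ) (T / 2), ‖A w‖ < T) →
      DifferentiableOn ℂ (fun w : ℂ => G (z, A w)) (ball 0 (T / 2)) := by
    intro z A hA' hz hw
    refine hG.comp (t := ball 0 R ×ˢ ball 0 T) (f := fun w : ℂ => ((z, A w) : E × ℂ)) ?_ ?_
    · exact ((differentiable_const z).prodMk hA').differentiableOn
    · intro w hw'
      exact ⟨mem_ball_zero_iff.mpr hz, mem_ball_zero_iff.mpr (hw w hw')⟩
  have dt : ∀ s : ℂ, ‖s‖ < T / 2 → DifferentiableOn ℂ (fun t : ℂ =>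
      G (x - y, t - s) * G (x + y, t + s) -
      ∑ i, ∑ k, G (x - b i, t) * G (x + b i, t) * (mm (PK p p) a b)⁻¹ i k *
        (G (a k - y, -s) * G (a k + y, s))) (ball 0 (T / 2)) := by
    intro s hs
    refine DifferentiableOn.sub (DifferentiableOn.mul ?_ ?_) ?_
    · refine key _ (fun t => t - s) (by fun_prop) n1 fun w hw => ?_
      rw [mem_ball_zero_iff] at hw
      exact (norm_sub_le _ _).trans_lt (by linarith)
    · refine key _ (fun t => t + s) (by fun_prop) n2 fun w hw => ?_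
      rw [mem_ball_zero_iff] at hw
      exact (norm_add_le _ _).trans_lt (by linarith)
    · refine DifferentiableOn.fun_sum fun i _ => DifferentiableOn.fun_sum fun k _ => ?_
      refine ((DifferentiableOn.mul ?_ ?_).mul_const _).mul_const _
      · refine key _ (fun t => t) (by fun_prop) (n3 i) fun w hw => ?_
        rw [mem_ball_zero_iff] at hw
        linarith
      · refine key _ (fun t => t) (by fun_prop) (n4 i) fun w hw => ?_
        rw [mem_ball_zero_iff] at hw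
        linarith
  have ds : ∀ t : ℂ, ‖t‖ < T / 2 → DifferentiableOn ℂ (fun s : ℂ =>
      G (x - y, t - s) * G (x + y, t + s) -
      ∑ i, ∑ k, G (x - b i, t) * G (x + b i, t) * (mm (PK p p) a b)⁻¹ i k *
        (G (a k - y, -s) * G (a k + y, s))) (ball 0 (T / 2)) := by
    intro t ht
    refine DifferentiableOn.sub (DifferentiableOn.mul ?_ ?_) ?_
    · refine key _ (fun s => t - s) (by fun_prop) n1 fun w hw => ?_
      rw [mem_ball_zero_iff] at hw
      exact (norm_sub_le _ _).trans_lt (by linarith)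
    · refine key _ (fun s => t + s) (by fun_prop) n2 fun w hw => ?_
      rw [mem_ball_zero_iff] at hw
      exact (norm_add_le _ _).trans_lt (by linarith)
    · refine DifferentiableOn.fun_sum fun i _ => DifferentiableOn.fun_sum fun k _ => ?_
      refine DifferentiableOn.const_mul (DifferentiableOn.mul ?_ ?_) _
      · refine key _ (fun s => -s) (by fun_prop) (n5 k) fun w hw => ?_
        rw [mem_ball_zero_iff] at hw
        rw [norm_neg]
        linarith
      · refine key _ (fun s => s) (by fun_prop) (n6 k) fun w hw => ?_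
        rw [mem_ball_zero_iff] at hw
        linarith
  have hT2 : 0 < T / 2 := by positivity
  -- complex `t`, real `s`
  have step1 : ∀ s : ℝ, |s| < T / 2 → ∀ t ∈ ball (0 : ℂ) (T / 2),
      G (x - y, t - (s : ℂ)) * G (x + y, t + (s : ℂ)) -
      ∑ i, ∑ k, G (x - b i, t) * G (x + b i, t) * (mm (PK p p) a b)⁻¹ i k *
        (G (a k - y, -(s : ℂ)) * G (a k + y, (s : ℂ))) = 0 := by
    intro s hs
    refine real_ext hT2 (dt (s : ℂ) (by simpa using hs)) fun t ht => ?_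
    exact sub_eq_zero.mpr (kernel_real hr hdet ha hb hA hG huc hx hy ht hs)
  have step2 := real_ext hT2 (ds t ht) (fun s hs => step1 s hs t (mem_ball_zero_iff.mpr ht)) s
    (mem_ball_zero_iff.mpr hs)
  exact sub_eq_zero.mp step2

/-- local flow -/
theorem flow_local' (hp : Differentiable ℂ p) (hp0 : p 0 = 1)
    (hr : RankLE (PK p p) N)
    (hA : Approach p β c l ε η) (hdet : (mm (PK p p) a b).det ≠ 0)
    (hR : 0 < R) (ha : ∀ i, 2 * ‖a i‖ < R) (hb : ∀ i, 2 * ‖b i‖ < R) :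
    ∃ (T : ℝ) (P : E × ℂ → ℂ), 0 < T ∧ DifferentiableOn ℂ P (ball 0 R ×ˢ ball 0 T) ∧
      (∀ x ∈ ball (0 : E) R, P (x, 0) = p x) ∧
      (∀ x ∈ ball (0 : E) R, HasDerivAt (fun t : ℂ => P (x, t)) (η x) 0) ∧
      ∀ᶠ Z : (E × ℂ) × (E × ℂ) in 𝓝 0,
        P (Z.1 - Z.2) * P (Z.1 + Z.2) = KRhs (mm (PK p p) a b)⁻¹ a b P Z.1 Z.2 := by
  obtain ⟨T, F, hT, hF⟩ := exists_FD hp hp0 hr hA hdet hR (fun i => (hb i).le)
  obtain ⟨G, hG, hG0, hG1, huc⟩ := exists_G hp hp0 hr hA hdet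
    (fun i => by have := ha i; have := norm_nonneg (a i); linarith) hb hR hT hF
  refine ⟨T, G, hT, hG, hG0, hG1, ?_⟩
  have o1 : IsOpen {Z : (E × ℂ) × (E × ℂ) | ‖Z.1.1‖ < R / 2} :=
    isOpen_lt (by fun_prop) (by fun_prop)
  have o2 : IsOpen {Z : (E × ℂ) × (E × ℂ) | ‖Z.1.2‖ < T / 2} :=
    isOpen_lt (by fun_prop) (by fun_prop)
  have o3 : IsOpen {Z : (E × ℂ) × (E × ℂ) | ‖Z.2.1‖ < R / 2} :=
    isOpen_lt (by fun_prop) (by fun_prop)
  have o4 : IsOpen {Z : (E × ℂ) × (E × ℂ) | ‖Z.2.2‖ < T / 2} :=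
    isOpen_lt (by fun_prop) (by fun_prop)
  filter_upwards [o1.mem_nhds (by simpa using hR), o2.mem_nhds (by simpa using hT),
    o3.mem_nhds (by simpa using hR), o4.mem_nhds (by simpa using hT)] with Z h1 h2 h3 h4
  obtain ⟨⟨x, t⟩, ⟨y, s⟩⟩ := Z
  have := kernel_complex hr hdet ha hb hT hA hG huc h1 h3 h2 h4
  simp only [KRhs, Prod.mk_sub_mk, Prod.mk_add_mk, sub_zero, add_zero, zero_sub, zero_add]
  exact this

/-- the extension of `p` in the secant direction -/
theorem flow' (hp : Differentiable ℂ p) (hp0 : p 0 = 1)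
    (hr : RankEq (PK p p) N) (hA : Approach p β c l ε η) :
    ∃ P : E × ℂ → ℂ, Differentiable ℂ P ∧ RankLE (PK P P) N ∧ (∀ x, P (x, 0) = p x) ∧
      ∀ x, HasDerivAt (fun t : ℂ => P (x, t)) (η x) 0 := by
  obtain ⟨a, b, hdet⟩ := hr.exists_minor
  set R : ℝ := 1 + ∑ i, 2 * ‖a i‖ + ∑ i, 2 * ‖b i‖ with hRdef
  have sa : 0 ≤ ∑ i, 2 * ‖a i‖ := Finset.sum_nonneg fun i _ => by positivity
  have sb : 0 ≤ ∑ i, 2 * ‖b i‖ := Finset.sum_nonneg fun i _ => by positivity
  have hR : 0 < R := by positivity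
  have ha : ∀ i, 2 * ‖a i‖ < R := by
    intro i
    have := Finset.single_le_sum (f := fun i => 2 * ‖a i‖) (fun i _ => by positivity)
      (Finset.mem_univ i)
    linarith
  have hb : ∀ i, 2 * ‖b i‖ < R := by
    intro i
    have := Finset.single_le_sum (f := fun i => 2 * ‖b i‖) (fun i _ => by positivity)
      (Finset.mem_univ i)
    linarith
  obtain ⟨T, P, hT, hP, hP0, hP1, hid⟩ := flow_local' hp hp0 hr.1 hA hdet hR ha hb
  have h00 : P 0 = 1 := by
    have := hP0 0 (mem_ball_self hR)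
    rw [hp0] at this
    exact this
  obtain ⟨Q, hQ, hQP, hQid⟩ := doubling (mm (PK p p) a b)⁻¹ a b hR ha hb hT hP h00 hid
  refine ⟨Q, hQ, ?_, ?_, ?_⟩
  · refine ⟨fun i Z => Q (Z - (b i, 0)) * Q (Z + (b i, 0)),
      fun i W => ∑ j, (mm (PK p p) a b)⁻¹ i j * (Q ((a j, 0) - W) * Q ((a j, 0) + W)), ?_⟩
    intro Z W
    rw [PK, hQid Z W, KRhs]
    refine Finset.sum_congr rfl fun i _ => ?_
    rw [Finset.mul_sum]
    refine Finset.sum_congr rfl fun k _ => ?_
    ring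
  · have hd : Differentiable ℂ fun x : E => Q (x, 0) - p x := by
      have h1 : Differentiable ℂ fun x : E => Q (x, 0) := hQ.comp (by fun_prop)
      exact h1.sub hp
    have h1 := identity (f := fun x : E => Q (x, 0) - p x) hd (x₀ := 0) (by
      filter_upwards [ball_mem_nhds (0 : E) hR] with x hx
      rw [hQP (x, 0) ⟨hx, mem_ball_self hT⟩, hP0 x hx, sub_self])
    intro x
    exact sub_eq_zero.mp (congrFun h1 x)
  · have hder : ∀ x : E, HasDerivAt (fun t : ℂ => Q (x, t)) (fderiv ℂ Q (x, 0) (0, 1)) 0 := by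
      intro x
      have h1 : HasDerivAt (fun t : ℂ => ((x, t) : E × ℂ)) (0, 1) 0 :=
        (hasDerivAt_const (0 : ℂ) x).prodMk (hasDerivAt_id (0 : ℂ))
      exact (hQ (x, 0)).hasFDerivAt.comp_hasDerivAt (0 : ℂ) h1
    have hdd : Differentiable ℂ fun x : E => fderiv ℂ Q (x, 0) (0, 1) := by
      have h1 := differentiable_dirDeriv hQ ((0, 1) : E × ℂ)
      exact h1.comp (f := fun x : E => ((x, 0) : E × ℂ)) (by fun_prop)
    have h1 := identity (f := fun x : E => fderiv ℂ Q (x, 0) (0, 1) - η x) (hdd.sub hA.diff)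
      (x₀ := 0) (by
        filter_upwards [ball_mem_nhds (0 : E) hR] with x hx
        have h2 := hP1 x hx
        have h3 : HasDerivAt (fun t : ℂ => P (x, t)) (fderiv ℂ Q (x, 0) (0, 1)) 0 := by
          refine (hder x).congr_of_eventuallyEq ?_
          filter_upwards [ball_mem_nhds (0 : ℂ) hT] with t ht
          exact (hQP (x, t) ⟨hx, ht⟩).symm
        rw [h3.unique h2, sub_self])
    intro x
    have h2 := sub_eq_zero.mp (congrFun h1 x)
    rw [← h2]
    exact hder x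

end ctx

end Pool.Agent.Lib.MP_db21fa_an.H68
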